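import Mathlib

/-! A Loomis-Whitney type isoperimetric inequality on a plane curve, by path lifting. -/

namespace Pool.Agent.P.MP_a3b544_ag

open scoped ContDiff ENNReal Topology
open Set MeasureTheory Filter

/-- A closed subset of `ℂ²` that is a finite branched covering of the first coordinate. -/
structure Nice (C : Set (ℂ × ℂ)) (Z : Set ℂ) : Prop where
  finZ : Z.Finite
  closed : IsClosed C
  bdd : ∃ M : ℝ, ∀ u ∈ C, ‖u.2‖ ≤ M * (1 + ‖u.1‖)
  fib : ∀ x, {v | (x, v) ∈ C}.Finite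
  opn : ∀ u ∈ C, ∀ W ∈ 𝓝 u, ∀ᶠ x in 𝓝 u.1, ∃ v, (x, v) ∈ W ∧ (x, v) ∈ C
  chart : ∀ u ∈ C, u.1 ∉ Z → ∃ g : ℂ → ℂ, AnalyticAt ℂ g u.1 ∧
    (∀ᶠ w in 𝓝 u, w ∈ C ↔ g w.1 = w.2) ∧ ∃ D ∈ 𝓝 u.1, InjOn g D

/-- `r` grows along smooth paths in `C` at most by the length. -/
def Lip (C : Set (ℂ × ℂ)) (r : ℂ × ℂ → ℝ≥0∞) : Prop :=
  ∀ (x v : ℝ → ℂ) (s t : ℝ), s ≤ t → ContDiffOn ℝ ∞ x (Icc s t) → ContDiffOn ℝ ∞ v (Icc s t) →
    (∀ τ ∈ Icc s t, (x τ, v τ) ∈ C) →
    r (x t, v t) ≤ r (x s, v s) + ∫⁻ τ in Icc s t, (‖deriv x τ‖ₑ + ‖deriv v τ‖ₑ)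

/-- Number of points of `S` above `x`. -/
noncomputable def cnt (S : Set (ℂ × ℂ)) (x : ℂ) : ℝ≥0∞ := ∑' v : ℂ, S.indicator 1 (x, v)

/-- Area of the first projection with multiplicity. -/
noncomputable def mu1 (S : Set (ℂ × ℂ)) : ℝ≥0∞ := ∫⁻ x, cnt S x

/-- Area of the second projection with multiplicity. -/
noncomputable def mu2 (S : Set (ℂ × ℂ)) : ℝ≥0∞ := mu1 (Prod.swap ⁻¹' S)

lemma tsum_le_of_injOn {α β : Type*} (f : α → ℝ≥0∞) (φ : β → ℝ≥0∞) (j : α → β)
    (hj : InjOn j (Function.support f)) (h : ∀ a, f a ≤ φ (j a)) : ∑' a, f a ≤ ∑' b, φ b := by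
  rw [← tsum_subtype_eq_of_support_subset (s := Function.support f) subset_rfl]
  refine le_trans (ENNReal.tsum_le_tsum fun a => h a) ?_
  exact ENNReal.tsum_comp_le_tsum_of_injective (f := fun a : Function.support f => j a)
    (fun a b hab => Subtype.ext (hj a.2 b.2 hab)) φ

lemma finset_sum_lintegral_le {α ι : Type*} [MeasurableSpace α] (μ : Measure α) (s : Finset ι)
    (f : ι → α → ℝ≥0∞) : ∑ i ∈ s, ∫⁻ a, f i a ∂μ ≤ ∫⁻ a, ∑ i ∈ s, f i a ∂μ := by
  classical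
  induction s using Finset.induction_on with
  | empty => simp
  | insert i s hi ih =>
    simp only [Finset.sum_insert hi]
    exact (add_le_add le_rfl ih).trans (le_lintegral_add _ _)

variable {C : Set (ℂ × ℂ)} {Z : Set ℂ}

/-- Countably many graphs partitioning the unramified part. -/
structure Pieces (C : Set (ℂ × ℂ)) (Z : Set ℂ) (D P : ℕ → Set ℂ) (g : ℕ → ℂ → ℂ) : Prop where
  isOpen : ∀ n, IsOpen (D n)
  meas : ∀ n, MeasurableSet (P n)
  sub : ∀ n, P n ⊆ D n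
  an : ∀ n, ∀ x ∈ D n, AnalyticAt ℂ (g n) x
  inj : ∀ n, InjOn (g n) (D n)
  mem : ∀ n, ∀ x ∈ D n, (x, g n x) ∈ C
  loc : ∀ n, ∀ x ∈ D n, ∀ᶠ w in 𝓝 (x, g n x), w ∈ C ↔ g n w.1 = w.2
  cover : ∀ u ∈ C, u.1 ∉ Z → ∃ n, u.1 ∈ P n ∧ g n u.1 = u.2
  uniq : ∀ n m x, x ∈ P n → x ∈ P m → g n x = g m x → n = m

lemma Nice.exists_pieces (hC : Nice C Z) : ∃ D P g, Pieces C Z D P g := by
  classical
  by_cases hne : (C ∩ {u | u.1 ∉ Z}).Nonempty
  swap
  · refine ⟨fun _ => ∅, fun _ => ∅, fun _ _ => 0, ?_⟩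
    constructor <;> try simp
    intro a b hab
    by_contra h
    exact hne ⟨(a, b), hab, h⟩
  have key : ∀ u : ℂ × ℂ, ∃ (W : Set (ℂ × ℂ)) (D : Set ℂ) (g : ℂ → ℂ),
      u ∈ C ∩ {u | u.1 ∉ Z} → IsOpen W ∧ u ∈ W ∧ IsOpen D ∧ (∀ x ∈ D, AnalyticAt ℂ g x) ∧
        InjOn g D ∧ (∀ x ∈ D, (x, g x) ∈ W) ∧ (∀ w ∈ W, w.1 ∈ D ∧ (w ∈ C ↔ g w.1 = w.2)) := by
    intro u
    by_cases hu : u ∈ C ∩ {u | u.1 ∉ Z}
    swap
    · exact ⟨∅, ∅, 0, fun h => absurd h hu⟩
    obtain ⟨g, hg, hev, D₀, hD₀, hinj⟩ := hC.chart u hu.1 hu.2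
    obtain ⟨W₀, hW₀, hW₀o, huW₀⟩ := mem_nhds_iff.1 hev
    have hgu : g u.1 = u.2 := hev.self_of_nhds.1 hu.1
    have h1 : ∀ᶠ x in 𝓝 u.1, (x, g x) ∈ W₀ := by
      have : ContinuousAt (fun x => (x, g x)) u.1 := continuousAt_id.prodMk hg.continuousAt
      exact this.eventually (hW₀o.mem_nhds (by simpa [hgu] using huW₀))
    obtain ⟨D, hD, hDo, huD⟩ := mem_nhds_iff.1
      (h1.and (hg.eventually_analyticAt.and (show ∀ᶠ x in 𝓝 u.1, x ∈ D₀ from hD₀)))
    refine ⟨W₀ ∩ Prod.fst ⁻¹' D, D, g, fun _ => ⟨hW₀o.inter (hDo.preimage continuous_fst),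
      ⟨huW₀, huD⟩, hDo, fun x hx => (hD hx).2.1, hinj.mono fun x hx => (hD hx).2.2,
      fun x hx => ⟨(hD hx).1, hx⟩, fun w hw => ⟨hw.2, hW₀ hw.1⟩⟩⟩
  choose W D g hW using key
  obtain ⟨t, ht, htc, hcov⟩ := TopologicalSpace.countable_cover_nhdsWithin
    (s := C ∩ {u | u.1 ∉ Z}) (f := W)
    fun u hu => mem_nhdsWithin_of_mem_nhds ((hW u hu).1.mem_nhds (hW u hu).2.1)
  have htne : t.Nonempty := by
    obtain ⟨u, hu⟩ := hne
    obtain ⟨i, hi, -⟩ := mem_iUnion₂.1 (hcov hu)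
    exact ⟨i, hi⟩
  obtain ⟨e, rfl⟩ := htc.exists_eq_range htne
  have he : ∀ n, e n ∈ C ∩ {u | u.1 ∉ Z} := fun n => ht (mem_range_self n)
  refine ⟨fun n => D (e n),
    fun n => D (e n) \ ⋃ m ∈ Finset.range n, (D (e n) ∩ (fun x => (x, g (e n) x)) ⁻¹' W (e m)),
    fun n => g (e n), ?_⟩
  have hcont : ∀ n, ContinuousOn (fun x => (x, g (e n) x)) (D (e n)) := fun n x hx =>
    (continuousAt_id.prodMk ((hW _ (he n)).2.2.2.1 x hx).continuousAt).continuousWithinAt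
  constructor
  · exact fun n => (hW _ (he n)).2.2.1
  · intro n
    refine (hW _ (he n)).2.2.1.measurableSet.diff (IsOpen.measurableSet ?_)
    exact isOpen_biUnion fun m _ =>
      (hcont n).isOpen_inter_preimage (hW _ (he n)).2.2.1 (hW _ (he m)).1
  · exact fun n => sdiff_subset
  · exact fun n => (hW _ (he n)).2.2.2.1
  · exact fun n => (hW _ (he n)).2.2.2.2.1
  · intro n x hx
    exact ((hW _ (he n)).2.2.2.2.2.2 _ ((hW _ (he n)).2.2.2.2.2.1 x hx)).2.2 rfl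
  · intro n x hx
    filter_upwards [(hW _ (he n)).1.mem_nhds ((hW _ (he n)).2.2.2.2.2.1 x hx)] with w hw
    exact ((hW _ (he n)).2.2.2.2.2.2 w hw).2
  · intro u hu huZ
    have hex : ∃ n, u ∈ W (e n) := by
      obtain ⟨i, ⟨n, rfl⟩, hi⟩ := mem_iUnion₂.1 (hcov ⟨hu, huZ⟩)
      exact ⟨n, hi⟩
    have h1 := (hW _ (he (Nat.find hex))).2.2.2.2.2.2 u (Nat.find_spec hex)
    have h2 := h1.2.1 hu
    refine ⟨Nat.find hex, ⟨h1.1, ?_⟩, h2⟩
    simp only [mem_iUnion, not_exists, Finset.mem_range]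
    intro m hm hmem
    have := hmem.2
    simp only [mem_preimage, h2] at this
    exact Nat.find_min hex hm this
  · have aux : ∀ n m x, n < m → x ∈ D (e n) →
        x ∈ D (e m) \ ⋃ k ∈ Finset.range m, (D (e m) ∩ (fun x => (x, g (e m) x)) ⁻¹' W (e k)) →
        g (e n) x = g (e m) x → False := by
      intro n m x hnm h1 h2 h3
      apply h2.2
      simp only [mem_iUnion, Finset.mem_range]
      refine ⟨n, hnm, h2.1, ?_⟩
      simp only [mem_preimage, ← h3]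
      exact (hW _ (he n)).2.2.2.2.2.1 x h1
    intro n m x hn hm h
    rcases lt_trichotomy n m with h' | h' | h'
    · exact (aux n m x h' hn.1 hm h).elim
    · exact h'
    · exact (aux m n x h' hm.1 hn h.symm).elim

lemma Nice.isCoveringMapOn (hC : Nice C Z) : IsCoveringMapOn (fun u : C => u.1.1) Zᶜ := by
  have hcont : Continuous (fun u : C => u.1.1) := by fun_prop
  have hprop : IsProperMap (fun u : C => u.1.1) := by
    refine isProperMap_iff_isCompact_preimage.2 ⟨hcont, fun K hK => ?_⟩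
    rw [Subtype.isCompact_iff]
    have : Subtype.val '' ((fun u : C => u.1.1) ⁻¹' K) = C ∩ Prod.fst ⁻¹' K := by
      ext u; simp [and_comm]
    rw [this]
    refine Metric.isCompact_of_isClosed_isBounded
      (hC.closed.inter (hK.isClosed.preimage continuous_fst)) ?_
    obtain ⟨M, hM⟩ := hC.bdd
    obtain ⟨R, hR⟩ := hK.isBounded.exists_norm_le
    refine isBounded_iff_forall_norm_le.2 ⟨max R (|M| * (1 + R)), fun u hu => ?_⟩
    have h1 := hR _ hu.2
    refine max_le_max h1 ((hM u hu.1).trans ?_)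
    have := norm_nonneg u.1
    gcongr
    exact le_abs_self M
  have hopen : IsOpenMap (fun u : C => u.1.1) := by
    rw [isOpenMap_iff_nhds_le]
    intro u
    rw [nhds_subtype_eq_comap, le_map_iff]
    intro s hs
    obtain ⟨W, hW, hWs⟩ := mem_comap.1 hs
    filter_upwards [hC.opn u.1 u.2 W hW] with x ⟨v, hv1, hv2⟩
    exact ⟨⟨(x, v), hv2⟩, hWs hv1, rfl⟩
  refine hprop.isClosedMap.isCoveringMapOn_of_isLocalHomeomorphOn (fun x _ => ?_) fun u hu => ?_
  · refine Finite.of_finite_image (f := fun u : C => u.1.2) ((hC.fib x).subset ?_) ?_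
    · rintro _ ⟨u, hu, rfl⟩
      have : u.1.1 = x := hu
      simp only [mem_ofPred_eq, ← this]
      exact u.2
    · intro u hu w hw h
      exact Subtype.ext (Prod.ext ((show u.1.1 = x from hu).trans (show w.1.1 = x from hw).symm) h)
  · obtain ⟨g, -, hev, -⟩ := hC.chart u.1 u.2 hu
    obtain ⟨W, hW, hWo, huW⟩ := mem_nhds_iff.1 hev
    have hinj : InjOn (fun u : C => u.1.1) (Subtype.val ⁻¹' W) := by
      intro a ha b hb h
      have h1 := (hW ha).1 a.2
      have h2 := (hW hb).1 b.2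
      have h3 : a.1.1 = b.1.1 := h
      exact Subtype.ext (Prod.ext h3 (by rw [← h1, ← h2, h3]))
    have : Nonempty C := ⟨u⟩
    exact ⟨OpenPartialHomeomorph.ofContinuousOpen hinj.toPartialEquiv hcont.continuousOn hopen
      (hWo.preimage continuous_subtype_val), huW, rfl⟩

lemma exists_crossing {f : ℝ → ℝ≥0∞} (hf : Continuous f) {a b : ℝ≥0∞} {t₀ T : ℝ}
    (hT : t₀ ≤ T) (h0 : f t₀ < a) (h1 : b ≤ f T) :
    ∃ s t, s ≤ t ∧ f s ≤ a ∧ b ≤ f t ∧ ∀ τ ∈ Ioo s t, f τ ∈ Ioo a b := by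
  have c1 : IsCompact (Icc t₀ T ∩ {τ | b ≤ f τ}) :=
    isCompact_Icc.inter_right (isClosed_le continuous_const hf)
  obtain ⟨t, ht, htl⟩ := c1.exists_isLeast ⟨T, ⟨hT, le_rfl⟩, h1⟩
  have c2 : IsCompact (Icc t₀ t ∩ {τ | f τ ≤ a}) :=
    isCompact_Icc.inter_right (isClosed_le hf continuous_const)
  obtain ⟨s, hs, hsl⟩ := c2.exists_isGreatest ⟨t₀, ⟨le_rfl, ht.1.1⟩, h0.le⟩
  refine ⟨s, t, hs.1.2, hs.2, ht.2, fun τ hτ => ⟨?_, ?_⟩⟩
  · by_contra h
    exact absurd (hsl ⟨⟨hs.1.1.trans hτ.1.le, hτ.2.le⟩, not_lt.1 h⟩) (not_le.2 hτ.1)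
  · by_contra h
    exact absurd (htl ⟨⟨hs.1.1.trans hτ.1.le, hτ.2.le.trans ht.1.2⟩, not_lt.1 h⟩) (not_le.2 hτ.2)

section Main

variable {D P : ℕ → Set ℂ} {g : ℕ → ℂ → ℂ} {r : ℂ × ℂ → ℝ≥0∞}

/-- The part of the piece `n` where `r` lies in `U`. -/
def QQ (P : ℕ → Set ℂ) (g : ℕ → ℂ → ℂ) (r : ℂ × ℂ → ℝ≥0∞) (U : Set ℝ≥0∞) (n : ℕ) : Set ℂ :=
  P n ∩ {x | r (x, g n x) ∈ U}

/-- Total speed of the lifts inside the region where `r` lies in `U`. -/
noncomputable def Phi (P : ℕ → Set ℂ) (g : ℕ → ℂ → ℂ) (r : ℂ × ℂ → ℝ≥0∞) (U : Set ℝ≥0∞)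
    (x : ℂ) : ℝ≥0∞ :=
  ∑' n, (QQ P g r U n).indicator (fun x => 1 + ‖deriv (g n) x‖ₑ) x

lemma Pieces.measurableSet_QQ (h : Pieces C Z D P g) (hr : ContinuousOn r C) {U : Set ℝ≥0∞}
    (hU : IsOpen U) (n : ℕ) : MeasurableSet (QQ P g r U n) := by
  have hc : ContinuousOn (fun x => r (x, g n x)) (D n) :=
    hr.comp (fun x hx => (continuousAt_id.prodMk (h.an n x hx).continuousAt).continuousWithinAt)
      (h.mem n)
  have ho := hc.isOpen_inter_preimage (h.isOpen n) hU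
  have : QQ P g r U n = P n ∩ (D n ∩ (fun x => r (x, g n x)) ⁻¹' U) := by
    ext x
    exact ⟨fun hx => ⟨hx.1, h.sub n hx.1, hx.2⟩, fun hx => ⟨hx.1, hx.2.2⟩⟩
  rw [this]
  exact (h.meas n).inter ho.measurableSet

lemma Pieces.measurable_Phi (h : Pieces C Z D P g) (hr : ContinuousOn r C) {U : Set ℝ≥0∞}
    (hU : IsOpen U) : Measurable (Phi P g r U) :=
  Measurable.tsum fun n =>
    (measurable_const.add (measurable_deriv (g n)).enorm).indicator (h.measurableSet_QQ hr hU n)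

lemma det_smul_one (c : ℂ) : (c • (1 : ℂ →L[ℝ] ℂ)).det = ‖c‖ ^ 2 := by
  rw [← Complex.normSq_eq_norm_sq, ← Algebra.norm_complex_apply, Algebra.norm_apply,
    ContinuousLinearMap.det]
  congr 1

lemma Pieces.lintegral_Phi_le (h : Pieces C Z D P g) (hr : ContinuousOn r C) {U : Set ℝ≥0∞}
    (hU : IsOpen U) :
    ∫⁻ x, Phi P g r U x ≤ 2 * (mu1 (C ∩ r ⁻¹' U) + mu2 (C ∩ r ⁻¹' U)) := by
  have hQ := h.measurableSet_QQ hr hU
  have hQD : ∀ n, QQ P g r U n ⊆ D n := fun n x hx => h.sub n hx.1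
  have himg : ∀ n, MeasurableSet (g n '' QQ P g r U n) := fun n =>
    (hQ n).image_of_continuousOn_injOn
      (fun x hx => (h.an n x (hQD n hx)).continuousAt.continuousWithinAt) ((h.inj n).mono (hQD n))
  have h1 : ∑' n, volume (QQ P g r U n) ≤ mu1 (C ∩ r ⁻¹' U) := by
    have : ∑' n, volume (QQ P g r U n) = ∫⁻ x, ∑' n, (QQ P g r U n).indicator 1 x := by
      rw [lintegral_tsum fun n => (measurable_one.indicator (hQ n)).aemeasurable]
      simp only [lintegral_indicator_one (hQ _)]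
    rw [this]
    refine lintegral_mono fun x => tsum_le_of_injOn _ _ (fun n => g n x) ?_ ?_
    · intro n hn m hm hnm
      exact h.uniq n m x (mem_of_indicator_ne_zero hn).1 (mem_of_indicator_ne_zero hm).1 hnm
    · intro n
      by_cases hx : x ∈ QQ P g r U n
      · rw [indicator_of_mem hx, indicator_of_mem (show (x, g n x) ∈ C ∩ r ⁻¹' U from
          ⟨h.mem n x (hQD n hx), hx.2⟩)]
        rfl
      · simp [hx]
  have h2 : ∑' n, volume (g n '' QQ P g r U n) ≤ mu2 (C ∩ r ⁻¹' U) := by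
    have : ∑' n, volume (g n '' QQ P g r U n) =
        ∫⁻ v, ∑' n, (g n '' QQ P g r U n).indicator 1 v := by
      rw [lintegral_tsum fun n => (measurable_one.indicator (himg n)).aemeasurable]
      simp only [lintegral_indicator_one (himg _)]
    rw [this]
    refine lintegral_mono fun v => ?_
    have hch : ∀ n, ∃ x, v ∈ g n '' QQ P g r U n → x ∈ QQ P g r U n ∧ g n x = v := by
      intro n
      by_cases hv : v ∈ g n '' QQ P g r U n
      · obtain ⟨x, hx⟩ := hv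
        exact ⟨x, fun _ => hx⟩
      · exact ⟨0, fun h => absurd h hv⟩
    choose j hj using hch
    refine tsum_le_of_injOn _ _ j ?_ ?_
    · intro n hn m hm hnm
      have a1 := hj n (mem_of_indicator_ne_zero hn)
      have a2 := hj m (mem_of_indicator_ne_zero hm)
      exact h.uniq n m (j n) a1.1.1 (hnm ▸ a2.1.1) (by rw [a1.2, hnm, a2.2])
    · intro n
      by_cases hv : v ∈ g n '' QQ P g r U n
      · have a1 := hj n hv
        rw [indicator_of_mem hv, indicator_of_mem (show (v, j n) ∈ Prod.swap ⁻¹' (C ∩ r ⁻¹' U) by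
          have := a1.1.2
          have a2 := h.mem n _ (hQD n a1.1)
          simp only [mem_ofPred_eq, a1.2] at this a2
          exact ⟨a2, this⟩)]
        rfl
      · simp [hv]
  unfold Phi
  have hmeas : ∀ n, Measurable ((QQ P g r U n).indicator (fun x => 1 + ‖deriv (g n) x‖ₑ)) :=
    fun n => (measurable_const.add (measurable_deriv (g n)).enorm).indicator (hQ n)
  rw [lintegral_tsum fun n => (hmeas n).aemeasurable]
  have h3 : ∀ n, ∫⁻ x, (QQ P g r U n).indicator (fun x => 1 + ‖deriv (g n) x‖ₑ) x ≤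
      2 * volume (QQ P g r U n) + volume (g n '' QQ P g r U n) := by
    intro n
    rw [lintegral_indicator (hQ n), ← lintegral_abs_det_fderiv_eq_addHaar_image volume (hQ n)
      (f' := fun x => deriv (g n) x • (1 : ℂ →L[ℝ] ℂ))
      (fun x hx => (h.an n x (hQD n hx)).differentiableAt.hasDerivAt.complexToReal_fderiv
        |>.hasFDerivWithinAt) ((h.inj n).mono (hQD n)), ← setLIntegral_const,
      ← lintegral_add_left measurable_const]
    refine lintegral_mono fun x => ?_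
    simp only [det_smul_one]
    rw [← ofReal_norm, ← ENNReal.ofReal_one, ← ENNReal.ofReal_add (by norm_num)
      (norm_nonneg _), ← ENNReal.ofReal_ofNat, ← ENNReal.ofReal_add (by norm_num) (abs_nonneg _)]
    apply ENNReal.ofReal_le_ofReal
    rw [abs_of_nonneg (sq_nonneg _)]
    nlinarith [sq_nonneg (‖deriv (g n) x‖ - 1)]
  refine (ENNReal.tsum_le_tsum h3).trans ?_
  rw [ENNReal.tsum_add, ENNReal.tsum_mul_left, mul_add]
  gcongr
  exact h2.trans (by rw [two_mul]; exact le_self_add)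

lemma cnt_eq_card (hC : Nice C Z) (S : Set (ℂ × ℂ)) (x : ℂ) :
    ∃ s : Finset ℂ, (∀ v, v ∈ s ↔ (x, v) ∈ C ∩ S) ∧ cnt (C ∩ S) x = s.card := by
  have hfin : {v | (x, v) ∈ C ∩ S}.Finite := (hC.fib x).subset fun v hv => hv.1
  refine ⟨hfin.toFinset, fun v => by simp, ?_⟩
  unfold cnt
  rw [tsum_eq_sum (s := hfin.toFinset) (fun v hv => indicator_of_notMem (by simpa using hv) _),
    Finset.card_eq_sum_ones, Nat.cast_sum]
  refine Finset.sum_congr rfl fun v hv => ?_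
  rw [indicator_of_mem (by simpa using hv)]
  simp

/-- The lifts of a line carry a definite length inside the shell. -/
lemma line_bound (hC : Nice C Z) (h : Pieces C Z D P g) (hr : ContinuousOn r C) (hlip : Lip C r)
    {a b : ℝ≥0∞} {R : ℝ} (hfar : ∀ u ∈ C, r u < b → ‖u.1‖ ≤ R)
    (β η : ℂ) (hη : ‖η‖ = 1) (hZ : ∀ τ : ℝ, β + τ * η ∉ Z) (t₀ : ℝ) :
    cnt (C ∩ r ⁻¹' Iio a) (β + t₀ * η) * (b - a) ≤
      ∫⁻ τ : ℝ, Phi P g r (Ioo a b) (β + τ * η) := by
  classical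
  obtain ⟨s, hs, hcard⟩ := cnt_eq_card hC (r ⁻¹' Iio a) (β + t₀ * η)
  let L : C(ℝ, ℂ) := ⟨fun τ => β + τ * η, by fun_prop⟩
  have hlift : ∀ (τ : ℝ) (e : C), e.1.1 = L τ →
      ∃! F : C(ℝ, C), F τ = e ∧ (fun u : C => u.1.1) ∘ F = L := fun τ e he =>
    hC.isCoveringMapOn.existsUnique_continuousMap_lifts L he hZ
  have hex : ∀ v : s, ∃ F : C(ℝ, C), (F t₀).1 = (β + t₀ * η, v.1) ∧
      (fun u : C => u.1.1) ∘ F = L := by
    intro v
    obtain ⟨F, ⟨hF1, hF2⟩, -⟩ := hlift t₀ ⟨(β + t₀ * η, v.1), ((hs v).1 v.2).1⟩ rfl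
    exact ⟨F, by rw [hF1], hF2⟩
  choose F hF0 hF using hex
  have hF1 : ∀ v τ, (F v τ).1.1 = β + τ * η := fun v τ => congrFun (hF v) τ
  let l : s → ℝ → ℂ := fun v τ => (F v τ).1.2
  have hFl : ∀ v τ, (F v τ).1 = (β + τ * η, l v τ) := fun v τ => Prod.ext (hF1 v τ) rfl
  have hinj : ∀ τ v w, l v τ = l w τ → v = w := by
    intro τ v w hvw
    have e1 : F v τ = F w τ := Subtype.ext (by rw [hFl, hFl, hvw])
    have e2 : F v = F w :=
      (hlift τ (F w τ) (hF1 w τ)).unique ⟨e1, hF v⟩ ⟨rfl, hF w⟩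
    have e3 := hF0 v
    rw [e2, hF0 w] at e3
    exact Subtype.ext (congrArg Prod.snd e3).symm
  have hch : ∀ v (τ : ℝ), ∃ n, β + τ * η ∈ P n ∧ g n (β + τ * η) = l v τ := by
    intro v τ
    have := h.cover (F v τ).1 (F v τ).2 (by rw [hF1]; exact hZ τ)
    rwa [hF1] at this
  choose N hN using hch
  have hLd : ∀ τ : ℝ, HasDerivAt (fun τ : ℝ => β + τ * η) η τ := fun τ => by
    simpa using (((hasDerivAt_id τ).ofReal_comp).mul_const η).const_add β
  have hloc : ∀ v τ, l v =ᶠ[𝓝 τ] fun σ : ℝ => g (N v τ) (β + σ * η) := by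
    intro v τ
    have h1 := h.loc (N v τ) _ (h.sub _ (hN v τ).1)
    rw [(hN v τ).2, ← hFl] at h1
    have hc : ContinuousAt (fun σ => (F v σ).1) τ := by fun_prop
    filter_upwards [hc.eventually h1] with σ hσ
    have := hσ.1 (F v σ).2
    rw [hF1] at this
    exact this.symm
  have hsm : ∀ v τ, ContDiffAt ℝ ∞ (l v) τ := by
    intro v τ
    refine ContDiffAt.congr_of_eventuallyEq ?_ (hloc v τ)
    have h1 : ContDiffAt ℝ ∞ (g (N v τ)) (β + τ * η) :=
      ((h.an _ _ (h.sub _ (hN v τ).1)).contDiffAt (n := ∞)).restrict_scalars ℝ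
    refine h1.comp τ ?_
    exact contDiffAt_const.add (Complex.ofRealCLM.contDiff.contDiffAt.mul contDiffAt_const)
  have hder : ∀ v τ, ‖deriv (l v) τ‖ₑ = ‖deriv (g (N v τ)) (β + τ * η)‖ₑ := by
    intro v τ
    rw [(hloc v τ).deriv_eq]
    have h1 := (h.an _ _ (h.sub _ (hN v τ).1)).differentiableAt.hasDerivAt
    have h2 : HasDerivAt (fun σ : ℝ => g (N v τ) (β + σ * η))
        (η • deriv (g (N v τ)) (β + τ * η)) τ := HasDerivAt.scomp τ h1 (hLd τ)
    rw [h2.deriv, smul_eq_mul, enorm_mul, ← ofReal_norm η, hη, ENNReal.ofReal_one,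
      one_mul]
  let ψ : s → ℝ → ℝ≥0∞ := fun v τ =>
    {τ | r (F v τ).1 ∈ Ioo a b}.indicator (fun τ => 1 + ‖deriv (l v) τ‖ₑ) τ
  have hψ : ∀ v, b - a ≤ ∫⁻ τ, ψ v τ := by
    intro v
    have hc : Continuous fun τ => r (F v τ).1 :=
      hr.comp_continuous (by fun_prop) fun τ => (F v τ).2
    have h0 : r (F v t₀).1 < a := by rw [hF0]; exact ((hs v).1 v.2).2
    set T := t₀ + (|R| + ‖β + t₀ * η‖ + 1) with hT
    have h1 : b ≤ r (F v T).1 := by
      by_contra hcon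
      have h2 := hfar _ (F v T).2 (not_le.1 hcon)
      rw [hF1] at h2
      have h3 : β + T * η - (β + t₀ * η) = ((|R| + ‖β + t₀ * η‖ + 1 : ℝ) : ℂ) * η := by
        rw [hT]; push_cast; ring
      have h4 := norm_sub_le (β + T * η) (β + t₀ * η)
      rw [h3, norm_mul, hη, Complex.norm_real, Real.norm_of_nonneg (by positivity)] at h4
      linarith [le_abs_self R]
    obtain ⟨σ, t, hσt, k1, k2, k3⟩ := exists_crossing hc (T := T)
      (by rw [hT]; linarith [abs_nonneg R, norm_nonneg (β + t₀ * η)]) h0 h1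
    have k4 := hlip (fun τ => β + τ * η) (l v) σ t hσt
      (contDiff_const.add (Complex.ofRealCLM.contDiff.mul contDiff_const)).contDiffOn
      (fun τ _ => (hsm v τ).contDiffWithinAt) (fun τ _ => by rw [← hFl]; exact (F v τ).2)
    rw [← hFl, ← hFl] at k4
    rw [tsub_le_iff_left]
    refine k2.trans (k4.trans (add_le_add k1 ?_))
    rw [← Measure.restrict_congr_set Ioo_ae_eq_Icc, ← lintegral_indicator measurableSet_Ioo]
    refine lintegral_mono fun τ => ?_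
    by_cases hτ : τ ∈ Ioo σ t
    · simp only [ψ]
      rw [indicator_of_mem hτ, indicator_of_mem (show τ ∈ {τ | r (F v τ).1 ∈ Ioo a b} from
        k3 τ hτ), (hLd τ).deriv, ← ofReal_norm η, hη, ENNReal.ofReal_one]
    · simp [hτ]
  calc cnt (C ∩ r ⁻¹' Iio a) (β + t₀ * η) * (b - a) = ∑ _v : s, (b - a) := by
        rw [hcard]; simp
    _ ≤ ∑ v : s, ∫⁻ τ, ψ v τ := Finset.sum_le_sum fun v _ => hψ v
    _ ≤ ∫⁻ τ, ∑ v : s, ψ v τ := finset_sum_lintegral_le _ _ _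
    _ ≤ _ := by
        refine lintegral_mono fun τ => ?_
        rw [← tsum_fintype (L := .unconditional _)]
        refine tsum_le_of_injOn _ _ (fun v => N v τ) (fun v _ w _ hvw => hinj τ v w ?_) fun v => ?_
        · rw [← (hN v τ).2, ← (hN w τ).2]
          exact congrArg (fun n => g n (β + τ * η)) hvw
        · simp only [ψ]
          by_cases hτ : τ ∈ {τ | r (F v τ).1 ∈ Ioo a b}
          · rw [indicator_of_mem hτ, indicator_of_mem, hder]
            refine ⟨(hN v τ).1, ?_⟩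
            rw [mem_ofPred_eq, (hN v τ).2, ← hFl]
            exact hτ
          · rw [indicator_of_notMem hτ]; exact zero_le

/-- Loomis-Whitney inequality for the first projection. -/
theorem loomis_whitney (hC : Nice C Z) (hr : ContinuousOn r C) (hlip : Lip C r)
    {a b : ℝ≥0∞} (hb : b ≠ ⊤) {R : ℝ} (hfar : ∀ u ∈ C, r u < b → ‖u.1‖ ≤ R) :
    mu1 (C ∩ r ⁻¹' Iio a) * (b - a) ^ 2 ≤
      (2 * (mu1 (C ∩ r ⁻¹' Ioo a b) + mu2 (C ∩ r ⁻¹' Ioo a b))) ^ 2 := by
  obtain ⟨D, P, g, h⟩ := hC.exists_pieces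
  set Φ := Phi P g r (Ioo a b) with hΦ
  have hm : Measurable Φ := h.measurable_Phi hr isOpen_Ioo
  let e := Complex.measurableEquivRealProd
  have he : MeasurePreserving e.symm := Complex.volume_preserving_equiv_real_prod.symm
  have hes : ∀ p : ℝ × ℝ, e.symm p = p.1 + p.2 * Complex.I := fun p => by
    simp [e, Complex.ext_iff]
  have hm2 : Measurable fun p : ℝ × ℝ => Φ (e.symm p) := hm.comp e.symm.measurable
  let G : ℝ → ℝ≥0∞ := fun t => ∫⁻ y, Φ (e.symm (t, y))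
  let H : ℝ → ℝ≥0∞ := fun y => ∫⁻ t, Φ (e.symm (t, y))
  have hG : Measurable G := hm2.lintegral_prod_right'
  have hH : Measurable H := hm2.lintegral_prod_left'
  have iG : ∫⁻ t, G t = ∫⁻ x, Φ x := by
    rw [← he.lintegral_comp_emb e.symm.measurableEmbedding, Measure.volume_eq_prod,
      lintegral_prod _ hm2.aemeasurable]
  have iH : ∫⁻ y, H y = ∫⁻ x, Φ x := by
    rw [← he.lintegral_comp_emb e.symm.measurableEmbedding, Measure.volume_eq_prod,
      lintegral_prod_symm _ hm2.aemeasurable]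
  have hae : ∀ᵐ p : ℝ × ℝ, p.1 ∉ Complex.re '' Z ∧ p.2 ∉ Complex.im '' Z := by
    have z1 : volume (Complex.re '' Z) = 0 := (hC.finZ.image _).measure_zero _
    have z2 : volume (Complex.im '' Z) = 0 := (hC.finZ.image _).measure_zero _
    rw [Measure.volume_eq_prod]
    exact (Measure.quasiMeasurePreserving_fst.ae (measure_eq_zero_iff_ae_notMem.1 z1)).and
      (Measure.quasiMeasurePreserving_snd.ae (measure_eq_zero_iff_ae_notMem.1 z2))
  calc mu1 (C ∩ r ⁻¹' Iio a) * (b - a) ^ 2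
      = ∫⁻ p : ℝ × ℝ, cnt (C ∩ r ⁻¹' Iio a) (e.symm p) * (b - a) ^ 2 := by
        rw [lintegral_mul_const' _ _ (ENNReal.pow_ne_top (ne_top_of_le_ne_top hb tsub_le_self)),
          he.lintegral_comp_emb e.symm.measurableEmbedding]
        rfl
    _ ≤ ∫⁻ p : ℝ × ℝ, G p.1 * H p.2 := by
        refine lintegral_mono_ae ?_
        filter_upwards [hae] with p hp
        have b1 := line_bound hC h hr hlip (a := a) hfar (p.2 * Complex.I) 1 (by simp)
          (fun τ hτ => hp.2 ⟨_, hτ, by simp⟩) p.1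
        have b2 := line_bound hC h hr hlip (a := a) hfar p.1 Complex.I (by simp)
          (fun τ hτ => hp.1 ⟨_, hτ, by simp⟩) p.2
        have e1 : ∀ t : ℝ, p.2 * Complex.I + t * 1 = e.symm (t, p.2) := fun t => by
          rw [hes]; ring
        have e2 : ∀ y : ℝ, p.1 + y * Complex.I = e.symm (p.1, y) := fun y => by rw [hes]
        simp only [e1] at b1
        simp only [e2] at b2
        obtain ⟨s, -, hs⟩ := cnt_eq_card hC (r ⁻¹' Iio a) (e.symm p)
        have hN : cnt (C ∩ r ⁻¹' Iio a) (e.symm p) ≤ cnt (C ∩ r ⁻¹' Iio a) (e.symm p) ^ 2 := by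
          rw [hs]
          exact_mod_cast Nat.le_self_pow two_ne_zero s.card
        calc cnt (C ∩ r ⁻¹' Iio a) (e.symm p) * (b - a) ^ 2
            ≤ cnt (C ∩ r ⁻¹' Iio a) (e.symm p) ^ 2 * (b - a) ^ 2 := by gcongr
          _ = (cnt (C ∩ r ⁻¹' Iio a) (e.symm p) * (b - a)) *
              (cnt (C ∩ r ⁻¹' Iio a) (e.symm p) * (b - a)) := by ring
          _ ≤ G p.1 * H p.2 := mul_le_mul' b2 b1
    _ = (∫⁻ x, Φ x) ^ 2 := by
        rw [Measure.volume_eq_prod, lintegral_prod_mul hG.aemeasurable hH.aemeasurable, iG, iH, sq]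
    _ ≤ _ := by
        gcongr
        exact h.lintegral_Phi_le hr isOpen_Ioo

end Main

end Pool.Agent.P.MP_a3b544_ag
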