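import Pool.Agent.P.MP_a3b544_ag.Area

/-! Intrinsic balls of a plane curve have a definite area. -/

namespace Pool.Agent.P.MP_a3b544_ag

open scoped ContDiff ENNReal Topology
open Set MeasureTheory Filter

/-- Area of a piece of a plane curve. -/
noncomputable def mass (S : Set (ℂ × ℂ)) : ℝ≥0∞ := mu1 S + mu2 S

lemma sum_mu1_le {ι : Type*} (s : Finset ι) (B : ι → Set (ℂ × ℂ)) (T : Set (ℂ × ℂ))
    (hd : (s : Set ι).PairwiseDisjoint B) (hT : ∀ i ∈ s, B i ⊆ T) :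
    ∑ i ∈ s, mu1 (B i) ≤ mu1 T := by
  refine (finset_sum_lintegral_le _ _ _).trans (lintegral_mono fun x => ?_)
  unfold cnt
  rw [← Summable.tsum_finsetSum fun _ _ => ENNReal.summable]
  refine ENNReal.tsum_le_tsum fun v => ?_
  by_cases h : ∃ i ∈ s, (x, v) ∈ B i
  · obtain ⟨i, hi, hx⟩ := h
    rw [Finset.sum_eq_single_of_mem i hi, indicator_of_mem hx, indicator_of_mem (hT i hi hx)]
    intro j hj hji
    exact indicator_of_notMem (fun h => Set.disjoint_left.1 (hd hj hi hji) h hx) _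
  · push Not at h
    rw [Finset.sum_eq_zero fun i hi => indicator_of_notMem (h i hi) _]
    exact zero_le

lemma sum_mass_le {ι : Type*} (s : Finset ι) (B : ι → Set (ℂ × ℂ)) (T : Set (ℂ × ℂ))
    (hd : (s : Set ι).PairwiseDisjoint B) (hT : ∀ i ∈ s, B i ⊆ T) :
    ∑ i ∈ s, mass (B i) ≤ mass T := by
  unfold mass
  rw [Finset.sum_add_distrib]
  refine add_le_add (sum_mu1_le s B T hd hT) (sum_mu1_le s _ _ ?_ ?_)
  · exact fun i hi j hj hij => (hd hi hj hij).preimage _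
  · exact fun i hi => preimage_mono (hT i hi)

lemma add_mass_le {S S' T : Set (ℂ × ℂ)} (hd : Disjoint S S') (h1 : S ⊆ T) (h2 : S' ⊆ T) :
    mass S + mass S' ≤ mass T := by
  have := sum_mass_le (Finset.univ : Finset Bool) (fun b => if b then S else S') T
    (by
      intro i _ j _ hij
      cases i <;> cases j <;> simp_all [Function.onFun, disjoint_comm])
    (by intro i _; cases i <;> simpa)
  simpa using this

variable {C : Set (ℂ × ℂ)} {Z₁ Z₂ : Set ℂ} {r : ℂ × ℂ → ℝ≥0∞}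

lemma Lip.swap (h : Lip C r) : Lip (Prod.swap ⁻¹' C) (r ∘ Prod.swap) := by
  intro x v s t hst hx hv hC
  have := h v x s t hst hv hx hC
  simpa only [Function.comp, Prod.swap_prod_mk, add_comm] using this

lemma mass_lw (h₁ : Nice C Z₁) (h₂ : Nice (Prod.swap ⁻¹' C) Z₂) (hr : ContinuousOn r C)
    (hlip : Lip C r) {a b : ℝ≥0∞} (hb : b ≠ ⊤) {R : ℝ}
    (hfar : ∀ u ∈ C, r u < b → ‖u.1‖ ≤ R ∧ ‖u.2‖ ≤ R) :
    mass (C ∩ r ⁻¹' Iio a) * (b - a) ^ 2 ≤ 8 * mass (C ∩ r ⁻¹' Ioo a b) ^ 2 := by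
  have k1 := loomis_whitney h₁ hr hlip (a := a) hb fun u hu h => (hfar u hu h).1
  have k2 := loomis_whitney h₂ (r := r ∘ Prod.swap)
    (hr.comp continuous_swap.continuousOn fun _ h => h) hlip.swap (a := a) hb
    fun u hu h => (hfar u.swap hu h).2
  have e1 : mu1 (Prod.swap ⁻¹' C ∩ (r ∘ Prod.swap) ⁻¹' Iio a) = mu2 (C ∩ r ⁻¹' Iio a) := rfl
  have e2 : mu1 (Prod.swap ⁻¹' C ∩ (r ∘ Prod.swap) ⁻¹' Ioo a b) = mu2 (C ∩ r ⁻¹' Ioo a b) := rfl
  have e3 : mu2 (Prod.swap ⁻¹' C ∩ (r ∘ Prod.swap) ⁻¹' Ioo a b) = mu1 (C ∩ r ⁻¹' Ioo a b) := rfl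
  rw [e1, e2, e3, add_comm] at k2
  unfold mass
  rw [add_mul]
  refine (add_le_add k1 k2).trans (le_of_eq ?_)
  ring

lemma mass_step (h₁ : Nice C Z₁) (h₂ : Nice (Prod.swap ⁻¹' C) Z₂) (hr : ContinuousOn r C)
    (hlip : Lip C r) {r₀ R : ℝ}
    (hfar : ∀ u ∈ C, r u < ENNReal.ofReal r₀ → ‖u.1‖ ≤ R ∧ ‖u.2‖ ≤ R) {a s : ℝ} (ha : 0 ≤ a)
    (hs : 0 < s) (has : a + 9 * s ≤ r₀)
    (h : ENNReal.ofReal (s ^ 2) ≤ mass (C ∩ r ⁻¹' Iio (ENNReal.ofReal a))) :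
    ENNReal.ofReal ((2 * s) ^ 2) ≤ mass (C ∩ r ⁻¹' Iio (ENNReal.ofReal (a + 9 * s))) := by
  have k := mass_lw h₁ h₂ hr hlip (a := ENNReal.ofReal a) (b := ENNReal.ofReal (a + 9 * s))
    ENNReal.ofReal_ne_top
    fun u hu h => hfar u hu (h.trans_le (ENNReal.ofReal_le_ofReal has))
  rw [← ENNReal.ofReal_sub _ ha, add_sub_cancel_left] at k
  have k2 : ENNReal.ofReal (3 * s ^ 2) ≤
      mass (C ∩ r ⁻¹' Ioo (ENNReal.ofReal a) (ENNReal.ofReal (a + 9 * s))) := by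
    by_contra hcon
    push Not at hcon
    have k3 : ENNReal.ofReal (s ^ 2) * ENNReal.ofReal (9 * s) ^ 2 ≤
        8 * ENNReal.ofReal (3 * s ^ 2) ^ 2 :=
      le_trans (by gcongr) (k.trans (by gcongr))
    rw [← ENNReal.ofReal_pow (by positivity), ← ENNReal.ofReal_pow (by positivity),
      ← ENNReal.ofReal_mul (by positivity), ← ENNReal.ofReal_ofNat,
      ← ENNReal.ofReal_mul (by positivity), ENNReal.ofReal_le_ofReal_iff (by positivity)] at k3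
    nlinarith [pow_pos hs 4]
  refine le_trans ?_ (add_mass_le (S := C ∩ r ⁻¹' Iio (ENNReal.ofReal a))
    (S' := C ∩ r ⁻¹' Ioo (ENNReal.ofReal a) (ENNReal.ofReal (a + 9 * s))) ?_ ?_ ?_)
  · refine le_trans (le_of_eq ?_) (add_le_add h k2)
    rw [← ENNReal.ofReal_add (by positivity) (by positivity)]
    congr 1; ring
  · exact Set.disjoint_left.2 fun u h1 h2 => lt_asymm h1.2 h2.2.1
  · exact fun u hu => ⟨hu.1, lt_of_lt_of_le hu.2 (ENNReal.ofReal_le_ofReal (by linarith))⟩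
  · exact fun u hu => ⟨hu.1, hu.2.2⟩

lemma mass_pos (h₁ : Nice C Z₁) (hr : ContinuousOn r C) {u₀ : ℂ × ℂ} (hu : u₀ ∈ C) {a : ℝ≥0∞}
    (ha : r u₀ < a) : 0 < mass (C ∩ r ⁻¹' Iio a) := by
  have h1 : r ⁻¹' Iio a ∈ 𝓝[C] u₀ := hr u₀ hu (Iio_mem_nhds ha)
  obtain ⟨W, hW, hWs⟩ := mem_nhdsWithin_iff_exists_mem_nhds_inter.1 h1
  obtain ⟨N, hN, hNo, huN⟩ := mem_nhds_iff.1 (h₁.opn u₀ hu W hW)
  refine lt_of_lt_of_le (hNo.measure_pos volume ⟨_, huN⟩) (le_trans ?_ le_self_add)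
  rw [← lintegral_indicator_one hNo.measurableSet]
  refine lintegral_mono fun x => ?_
  by_cases hx : x ∈ N
  · obtain ⟨v, hv1, hv2⟩ := hN hx
    refine le_trans ?_ (ENNReal.le_tsum v)
    rw [indicator_of_mem hx, indicator_of_mem (show (x, v) ∈ C ∩ r ⁻¹' Iio a from
      ⟨hv2, hWs ⟨hv1, hv2⟩⟩)]
    rfl
  · simp [hx]

theorem ball_mass (h₁ : Nice C Z₁) (h₂ : Nice (Prod.swap ⁻¹' C) Z₂) (hr : ContinuousOn r C)
    (hlip : Lip C r) {r₀ R : ℝ} (hr₀ : 0 < r₀)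
    (hfar : ∀ u ∈ C, r u < ENNReal.ofReal r₀ → ‖u.1‖ ≤ R ∧ ‖u.2‖ ≤ R) {u₀ : ℂ × ℂ}
    (hu : u₀ ∈ C) (h0 : r u₀ = 0) :
    ENNReal.ofReal ((r₀ / 18) ^ 2) ≤ mass (C ∩ r ⁻¹' Iio (ENNReal.ofReal r₀)) := by
  have hpos := mass_pos h₁ hr hu (a := ENNReal.ofReal (r₀ / 2)) (by rw [h0]; simpa using hr₀)
  obtain ⟨n, hn⟩ : ∃ n : ℕ, ENNReal.ofReal ((r₀ / 18 * (1 / 2) ^ n) ^ 2) ≤
      mass (C ∩ r ⁻¹' Iio (ENNReal.ofReal (r₀ / 2))) := by
    have t1 : Tendsto (fun n : ℕ => (r₀ / 18 * (1 / 2) ^ n) ^ 2) atTop (𝓝 ((r₀ / 18 * 0) ^ 2)) :=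
      ((tendsto_pow_atTop_nhds_zero_of_lt_one (by norm_num) (by norm_num)).const_mul _).pow 2
    have t2 := ENNReal.tendsto_ofReal t1
    simp only [mul_zero, ne_eq, OfNat.ofNat_ne_zero, not_false_eq_true, zero_pow,
      ENNReal.ofReal_zero] at t2
    exact ((t2.eventually (gt_mem_nhds hpos)).exists).imp fun _ h => h.le
  set s := r₀ / 18 * (1 / 2) ^ n with hs
  have hs0 : 0 < s := by positivity
  have hsn : 2 ^ n * s = r₀ / 18 := by
    rw [hs, one_div, inv_pow]; field_simp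
  have key : ∀ k ≤ n, ENNReal.ofReal ((2 ^ k * s) ^ 2) ≤
      mass (C ∩ r ⁻¹' Iio (ENNReal.ofReal (r₀ / 2 + 9 * s * (2 ^ k - 1)))) := by
    intro k
    induction k with
    | zero => intro _; simpa using hn
    | succ k ih =>
      intro hk
      have h1 : (1 : ℝ) ≤ 2 ^ k := one_le_pow₀ (by norm_num)
      have h2 : (2 : ℝ) ^ (k + 1) ≤ 2 ^ n := pow_le_pow_right₀ (by norm_num) hk
      have := mass_step h₁ h₂ hr hlip hfar (a := r₀ / 2 + 9 * s * (2 ^ k - 1)) (s := 2 ^ k * s)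
        (by have : 0 ≤ s * (2 ^ k - 1) := mul_nonneg hs0.le (by linarith); linarith)
        (by positivity) (by rw [pow_succ] at h2; nlinarith) (ih (by omega))
      rw [show (2 : ℝ) ^ (k + 1) * s = 2 * (2 ^ k * s) by ring,
        show r₀ / 2 + 9 * s * (2 ^ (k + 1) - 1) =
          r₀ / 2 + 9 * s * (2 ^ k - 1) + 9 * (2 ^ k * s) by ring]
      exact this
  have := key n le_rfl
  rw [hsn] at this
  refine this.trans (le_trans le_self_add (add_mass_le (S' := ∅) (by simp) ?_ (by simp)))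
  exact fun u hu => ⟨hu.1, lt_of_lt_of_le hu.2 (ENNReal.ofReal_le_ofReal (by nlinarith))⟩

lemma mu1_le {d : ℕ} (hd : ∀ x, ∃ ρ : Fin d → ℂ, ∀ v, (x, v) ∈ C → v ∈ range ρ) {S : Set (ℂ × ℂ)}
    (hS : S ⊆ C) (hR : ∀ u ∈ S, ‖u.1‖ ≤ 3) : mu1 S ≤ 36 * d := by
  classical
  have h1 : ∀ x, cnt S x ≤ (Metric.closedBall (0 : ℂ) 3).indicator (fun _ => (d : ℝ≥0∞)) x := by
    intro x
    by_cases hx : x ∈ Metric.closedBall (0 : ℂ) 3
    · obtain ⟨ρ, hρ⟩ := hd x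
      rw [indicator_of_mem hx]
      unfold cnt
      rw [tsum_eq_sum (s := Finset.univ.image ρ) fun v hv => indicator_of_notMem
        (fun h => hv (by simpa using hρ v (hS h))) _]
      calc ∑ v ∈ Finset.univ.image ρ, S.indicator (1 : ℂ × ℂ → ℝ≥0∞) (x, v)
          ≤ ∑ _v ∈ Finset.univ.image ρ, (1 : ℝ≥0∞) :=
            Finset.sum_le_sum fun v _ => indicator_le_self _ _ _
        _ ≤ d := by
            simp only [Finset.sum_const, nsmul_eq_mul, mul_one, Nat.cast_le]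
            exact Finset.card_image_le.trans (by simp)
    · have : ∀ v, (x, v) ∉ S := fun v h => hx (by simpa using hR _ h)
      simp [cnt, this]
  refine (lintegral_mono h1).trans ?_
  rw [lintegral_indicator measurableSet_closedBall, setLIntegral_const, Complex.volume_closedBall,
    mul_comm]
  gcongr
  have : (NNReal.pi : ℝ≥0∞) ≤ 4 := by
    have : NNReal.pi ≤ 4 := by
      rw [← NNReal.coe_le_coe]; exact Real.pi_le_four
    exact_mod_cast this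
  calc ENNReal.ofReal 3 ^ 2 * (NNReal.pi : ℝ≥0∞) ≤ ENNReal.ofReal 3 ^ 2 * 4 := by gcongr
    _ = 36 := by simp; norm_num

end Pool.Agent.P.MP_a3b544_ag
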