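import Pool.Agent.P.MP_a3b544_ag.Local
import Pool.Agent.P.MP_a3b544_ag.Ball

/-! Plane sections in an affine chart are finite branched coverings. -/

namespace Pool.Agent.P.MP_a3b544_ag

open scoped ContDiff ENNReal Topology Polynomial Polynomial.Bivariate
open Set MeasureTheory Filter Polynomial

lemma exists_separable_part (P : ℂ[X][Y]) (hP : P.Monic) (hd : P.natDegree ≠ 0) :
    ∃ (R A B : ℂ[X][Y]) (Δ : ℂ[X]), Δ ≠ 0 ∧ R * A + derivative R * B = C Δ ∧
      ∀ x v : ℂ, R.evalEval x v = 0 ↔ P.evalEval x v = 0 := by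
  classical
  let K := FractionRing ℂ[X]
  let φ := algebraMap ℂ[X] K
  have hφ : Function.Injective φ := IsFractionRing.injective _ _
  have hPK : (P.map φ).Monic := hP.map φ
  set RK := UniqueFactorizationMonoid.radical (P.map φ) with hRK
  have h1 : RK ∣ P.map φ := UniqueFactorizationMonoid.radical_dvd_self
  obtain ⟨n, h2⟩ : ∃ n, P.map φ ∣ RK ^ n :=
    UniqueFactorizationMonoid.exists_dvd_radical_self_pow hPK.ne_zero
  have h3 : Squarefree RK := UniqueFactorizationMonoid.squarefree_radical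
  obtain ⟨R, hR⟩ := IsIntegrallyClosed.eq_map_mul_C_of_dvd K hP h1
  have hlc : RK.leadingCoeff ≠ 0 := leadingCoeff_ne_zero.2 h3.ne_zero
  have hRm : (R.map φ).Monic := by
    have := congrArg leadingCoeff hR
    rw [leadingCoeff_mul, leadingCoeff_C] at this
    exact mul_right_cancel₀ hlc (this.trans (one_mul _).symm)
  have hRm' : R.Monic := (Function.Injective.monic_map_iff hφ).2 hRm
  have hass : Associated (R.map φ) RK :=
    hR ▸ associated_mul_unit_right _ _ (isUnit_C.2 hlc.isUnit)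
  have d1 : R ∣ P := (map_dvd_map φ hφ hRm').1 (hass.dvd.trans h1)
  have d2 : P ∣ R ^ n := (map_dvd_map φ hφ hP).1 (by
    rw [Polynomial.map_pow]; exact h2.trans (pow_dvd_pow_of_dvd hass.symm.dvd n))
  have hsep : (R.map φ).Separable :=
    PerfectField.separable_iff_squarefree.2 (hass.symm.squarefree_iff.1 h3)
  have hRd : R.natDegree ≠ 0 := by
    intro h
    rw [hRm'.natDegree_eq_zero.1 h, one_pow] at d2
    exact hd (natDegree_eq_zero_of_isUnit (isUnit_of_dvd_one d2))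
  obtain ⟨A, B, -, -, hAB⟩ := exists_mul_add_mul_eq_C_resultant R (derivative R) le_rfl le_rfl
    (Or.inl hRd)
  refine ⟨R, A, B, _, ?_, hAB, fun x v => ⟨fun h => ?_, fun h => ?_⟩⟩
  · intro h
    have := resultant_ne_zero _ _ hsep
    rw [derivative_map, natDegree_map_eq_of_injective hφ, natDegree_map_eq_of_injective hφ,
      resultant_map_map, h, map_zero] at this
    exact this rfl
  · have := evalEval_dvd x v d1
    rwa [h, zero_dvd_iff] at this
  · have := evalEval_dvd x v d2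
    rw [h, zero_dvd_iff, evalEval_pow] at this
    exact eq_zero_of_pow_eq_zero this

lemma analyticAt_evalEval (R : ℂ[X][Y]) (u : ℂ × ℂ) :
    AnalyticAt ℂ (fun w : ℂ × ℂ => R.evalEval w.1 w.2) u := by
  induction R using Polynomial.induction_on' with
  | add p q hp hq => simp only [evalEval_add]; exact hp.add hq
  | monomial n a =>
    simp only [← C_mul_X_pow_eq_monomial, evalEval_mul, evalEval_C, evalEval_pow, evalEval_X]
    exact (analyticAt_fst.aeval_polynomial a).mul (analyticAt_snd.pow n)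

lemma hasDerivAt_evalEval (R : ℂ[X][Y]) (x v : ℂ) :
    HasDerivAt (fun s => R.evalEval x s) ((derivative R).evalEval x v) v := by
  simp only [← map_evalRingHom_eval, ← derivative_map]
  exact Polynomial.hasDerivAt _ v

variable {F : MvPolynomial (Fin 4) ℂ} {d : ℕ}

/-- The plane section in the affine chart given by a frame. -/
def sect (F : MvPolynomial (Fin 4) ℂ) (e₀ e₁ e₂ : E4) : Set (ℂ × ℂ) :=
  {u | ev F (e₀ + u.1 • e₁ + u.2 • e₂) = 0}

lemma swap_sect (e₀ e₁ e₂ : E4) : Prod.swap ⁻¹' sect F e₀ e₁ e₂ = sect F e₀ e₂ e₁ := by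
  ext u
  simp only [sect, mem_preimage, mem_ofPred_eq, Prod.fst_swap, Prod.snd_swap, add_right_comm]

lemma exists_weak_chart (hd : 1 ≤ d) (hF : F.IsHomogeneous d) (e₀ e₁ : E4) {e₂ : E4}
    (h₂ : ev F e₂ ≠ 0) :
    ∃ Z : Set ℂ, Z.Finite ∧ ∀ u ∈ sect F e₀ e₁ e₂, u.1 ∉ Z → ∃ g : ℂ → ℂ, AnalyticAt ℂ g u.1 ∧
      ∀ᶠ w in 𝓝 u, w ∈ sect F e₀ e₁ e₂ ↔ g w.1 = w.2 := by
  obtain ⟨k1, k2⟩ := linePoly_spec hF (A := ℂ[X]) (fun i => C (e₀ i) + X * C (e₁ i))
    (fun i => C (e₂ i))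
  set P₀ : ℂ[X][Y] := MvPolynomial.aeval
    (fun i => C (C (e₀ i) + X * C (e₁ i)) + X * C (C (e₂ i))) F with hP₀
  have k3 : MvPolynomial.aeval (fun i => (C (e₂ i) : ℂ[X])) F = C (ev F e₂) :=
    MvPolynomial.aeval_algebraMap_apply ℂ[X] (fun i => e₂ i) F
  have k4 : ∀ x v, P₀.evalEval x v = ev F (e₀ + x • e₁ + v • e₂) := by
    intro x v
    rw [← coe_aevalAeval_eq_evalEval, hP₀, ← AlgHom.comp_apply, MvPolynomial.comp_aeval]
    unfold ev
    rw [MvPolynomial.aeval_eq_eval]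
    have : (fun i => (aevalAeval x v) (C (C (e₀ i) + X * C (e₁ i)) + X * C (C (e₂ i)))) =
        fun i => (e₀ + x • e₁ + v • e₂) i := by
      ext i
      simp only [coe_aevalAeval_eq_evalEval, evalEval_add, evalEval_mul, evalEval_C, evalEval_X,
        eval_add, eval_mul, eval_C, eval_X, PiLp.add_apply, PiLp.smul_apply, smul_eq_mul]
    rw [this]
  have hc : (C (C (ev F e₂)⁻¹) * P₀).coeff d = 1 := by
    rw [coeff_C_mul, k2, k3, ← C_mul, inv_mul_cancel₀ h₂, C_1]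
  have hdeg : (C (C (ev F e₂)⁻¹) * P₀).natDegree ≤ d := (natDegree_C_mul_le _ _).trans k1
  obtain ⟨R, A, B, Δ, hΔ, hAB, hR⟩ := exists_separable_part (C (C (ev F e₂)⁻¹) * P₀)
    (monic_of_natDegree_le_of_coeff_eq_one d hdeg hc)
    (by rw [natDegree_eq_of_le_of_coeff_ne_zero hdeg (by rw [hc]; exact one_ne_zero)]; omega)
  have hmem : ∀ w : ℂ × ℂ, w ∈ sect F e₀ e₁ e₂ ↔ R.evalEval w.1 w.2 = 0 := by
    intro w
    rw [hR, evalEval_mul, k4, evalEval_C, eval_C, mul_eq_zero]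
    simp [sect, h₂]
  refine ⟨{x | IsRoot Δ x}, finite_setOfPred_isRoot hΔ, fun u hu huZ => ?_⟩
  have h0 := (hmem u).1 hu
  have h1 : (derivative R).evalEval u.1 u.2 ≠ 0 := by
    intro h
    have := congrArg (evalEval u.1 u.2) hAB
    rw [evalEval_add, evalEval_mul, evalEval_mul, h0, h, evalEval_C] at this
    exact huZ (by simpa using this.symm)
  obtain ⟨g, hg, hev⟩ := exists_implicit (analyticAt_evalEval R u)
    (hasDerivAt_evalEval R u.1 u.2) h1
  refine ⟨g, hg, ?_⟩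
  filter_upwards [hev] with w hw
  rw [hmem, ← hw, h0]

lemma exists_root_bound (hF : F.IsHomogeneous d) {b : E4} (hb : ev F b ≠ 0) :
    ∃ M : ℝ, 0 ≤ M ∧ ∀ (a : E4) (T : ℂ), ev F (a + T • b) = 0 → ‖T‖ ≤ M * ‖a‖ := by
  obtain ⟨δ, hδ, h⟩ := Metric.eventually_nhds_iff.1
    ((continuous_ev F).continuousAt.eventually_ne hb)
  refine ⟨δ⁻¹, by positivity, fun a T hT => ?_⟩
  by_cases hT0 : T = 0
  · rw [hT0, norm_zero]; positivity
  have h1 : ev F (T⁻¹ • (a + T • b)) = 0 := by rw [ev_smul hF, hT, mul_zero]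
  have h2 : ¬ dist (T⁻¹ • (a + T • b)) b < δ := fun h' => h h' h1
  rw [smul_add, smul_smul, inv_mul_cancel₀ hT0, one_smul, dist_eq_norm, add_sub_cancel_right,
    norm_smul, norm_inv, not_lt, ← div_eq_inv_mul, le_div_iff₀ (norm_pos_iff.2 hT0)] at h2
  rw [← div_eq_inv_mul, le_div_iff₀ hδ]
  linarith

lemma sect_fiber (hF : F.IsHomogeneous d) (e₀ e₁ : E4) {e₂ : E4} (h₂ : ev F e₂ ≠ 0) (x : ℂ) :
    ∃ ρ : Fin d → ℂ, ∀ v, (x, v) ∈ sect F e₀ e₁ e₂ → v ∈ range ρ := by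
  obtain ⟨ρ, hρ⟩ := exists_roots hF (e₀ + x • e₁) h₂
  refine ⟨ρ, fun v hv => ?_⟩
  have h : ev F (e₀ + x • e₁ + v • e₂) = 0 := hv
  rw [hρ, mul_eq_zero, Finset.prod_eq_zero_iff] at h
  obtain ⟨i, -, hi⟩ := h.resolve_left h₂
  exact ⟨i, (sub_eq_zero.1 hi).symm⟩

theorem exists_nice (hd : 1 ≤ d) (hF : F.IsHomogeneous d) (e₀ : E4) {e₁ e₂ : E4}
    (h₁ : ev F e₁ ≠ 0) (h₂ : ev F e₂ ≠ 0) : ∃ Z, Nice (sect F e₀ e₁ e₂) Z := by
  obtain ⟨Z₁, hZ₁, c₁⟩ := exists_weak_chart hd hF e₀ e₁ h₂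
  obtain ⟨Z₂, hZ₂, c₂⟩ := exists_weak_chart hd hF e₀ e₂ h₁
  have hcont : Continuous fun u : ℂ × ℂ => ev F (e₀ + u.1 • e₁ + u.2 • e₂) :=
    (continuous_ev F).comp (by fun_prop)
  refine ⟨Z₁ ∪ ⋃ v ∈ Z₂, {x | (v, x) ∈ sect F e₀ e₂ e₁}, ?_, ?_, ?_, ?_, ?_, ?_⟩
  · refine hZ₁.union (hZ₂.biUnion fun v _ => ?_)
    obtain ⟨ρ, hρ⟩ := sect_fiber hF e₀ e₂ h₁ v
    exact (finite_range ρ).subset hρ
  · exact isClosed_eq hcont continuous_const
  · obtain ⟨M, hM0, hM⟩ := exists_root_bound hF h₂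
    refine ⟨M * (‖e₀‖ + ‖e₁‖), fun u hu => (hM _ _ hu).trans ?_⟩
    rw [mul_assoc]
    gcongr
    refine (norm_add_le _ _).trans ?_
    rw [norm_smul]
    nlinarith [norm_nonneg e₀, norm_nonneg e₁, norm_nonneg u.1]
  · intro x
    obtain ⟨ρ, hρ⟩ := sect_fiber hF e₀ e₁ h₂ x
    exact (finite_range ρ).subset hρ
  · intro u hu W hW
    obtain ⟨ε, hε, hεW⟩ := Metric.mem_nhds_iff.1 hW
    have h1 : ContinuousAt (fun x : ℂ => ‖ev F (e₀ + x • e₁ + u.2 • e₂)‖) u.1 :=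
      ((continuous_ev F).comp (by fun_prop)).norm.continuousAt
    have h2 : ‖ev F (e₀ + u.1 • e₁ + u.2 • e₂)‖ < ‖ev F e₂‖ * ε ^ d := by
      rw [show ev F (e₀ + u.1 • e₁ + u.2 • e₂) = 0 from hu, norm_zero]
      exact mul_pos (norm_pos_iff.2 h₂) (pow_pos hε d)
    filter_upwards [h1.eventually (gt_mem_nhds h2), Metric.ball_mem_nhds u.1 hε] with x hx hxb
    obtain ⟨ρ, hρ⟩ := exists_roots hF (e₀ + x • e₁) h₂
    have : ∃ i, ‖u.2 - ρ i‖ < ε := by
      by_contra hcon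
      push Not at hcon
      rw [hρ, norm_mul, norm_prod] at hx
      have h3 : ε ^ d ≤ ∏ i, ‖u.2 - ρ i‖ := by
        calc ε ^ d = ∏ _i : Fin d, ε := by simp
          _ ≤ _ := Finset.prod_le_prod (fun _ _ => hε.le) fun i _ => hcon i
      exact absurd hx (not_lt.2 (by gcongr))
    obtain ⟨i, hi⟩ := this
    refine ⟨ρ i, hεW ?_, ?_⟩
    · rw [Metric.mem_ball, Prod.dist_eq, max_lt_iff]
      exact ⟨hxb, by rwa [dist_comm, dist_eq_norm]⟩
    · change ev F _ = 0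
      rw [hρ, Finset.prod_eq_zero (Finset.mem_univ i) (sub_self _), mul_zero]
  · intro u hu huZ
    have hu' : u.swap ∈ sect F e₀ e₂ e₁ := by rw [← swap_sect]; simpa using hu
    obtain ⟨g, hg, hev⟩ := c₁ u hu fun h => huZ (Or.inl h)
    obtain ⟨k, -, hev'⟩ := c₂ u.swap hu' fun h => huZ (Or.inr (mem_biUnion h hu'))
    refine ⟨g, hg, hev, {x | k (g x) = x}, ?_, fun x hx y hy h => ?_⟩
    · have hgu : g u.1 = u.2 := hev.self_of_nhds.1 hu
      have t1 : Tendsto (fun x => (x, g x)) (𝓝 u.1) (𝓝 u) := by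
        have := (continuousAt_id.prodMk hg.continuousAt).tendsto
        simpa [hgu] using this
      have t2 : Tendsto (fun x => (g x, x)) (𝓝 u.1) (𝓝 u.swap) :=
        (continuous_swap.tendsto u).comp t1
      filter_upwards [t1.eventually hev, t2.eventually hev'] with x h1 h2
      refine h2.1 ?_
      rw [← swap_sect]
      exact h1.2 rfl
    · rw [← show k (g x) = x from hx, h]; exact hy

end Pool.Agent.P.MP_a3b544_ag
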