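import Mathlib

/-! Intrinsic Fubini-Study diameter of smooth surfaces in complex projective 3-space.
A point of projective space is represented by a nonzero vector of `ℂ⁴`; two vectors represent the
same point when they span the same complex line. A smooth arc in projective space is represented
by a smooth lift to `ℂ⁴ ∖ 0`. -/

namespace Pool.Agent.P.MP_a3b544_ag

open scoped ContDiff

/-- Nonzero vectors representing the points of the surface `F = 0`. -/
def cone (F : MvPolynomial (Fin 4) ℂ) : Set (EuclideanSpace ℂ (Fin 4)) :=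
  {z | z ≠ 0 ∧ MvPolynomial.eval (fun i => z i) F = 0}

/-- `F = 0` is a smooth surface of degree `d`: `F` is a form of degree `d` whose gradient
vanishes at no point of the surface. -/
def IsSmoothSurface (d : ℕ) (F : MvPolynomial (Fin 4) ℂ) : Prop :=
  F.IsHomogeneous d ∧
    ∀ z ∈ cone F, ∃ j : Fin 4, MvPolynomial.eval (fun i => z i) (MvPolynomial.pderiv j F) ≠ 0

/-- Fubini-Study norm of the tangent vector of projective space at `[z]` induced by `v`. -/
noncomputable def fsSpeed (z v : EuclideanSpace ℂ (Fin 4)) : ℝ :=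
  √(‖z‖ ^ 2 * ‖v‖ ^ 2 - ‖∑ i, star (z i) * v i‖ ^ 2) / ‖z‖ ^ 2

/-- Fubini-Study length of the arc `t ↦ [γ t]`, `0 ≤ t ≤ 1`. -/
noncomputable def arcLength (γ : ℝ → EuclideanSpace ℂ (Fin 4)) : ENNReal :=
  ∫⁻ t in Set.Icc (0 : ℝ) 1, ENNReal.ofReal (fsSpeed (γ t) (deriv γ t))

/-- A piecewise smooth curve in the surface from `[x]` to `[y]`: smooth arcs `γ 0, …, γ n` in the
surface, each one ending at the point of projective space where the next one starts. -/
def IsPiecewiseSmoothCurve (F : MvPolynomial (Fin 4) ℂ) (x y : EuclideanSpace ℂ (Fin 4)) (n : ℕ)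
    (γ : ℕ → ℝ → EuclideanSpace ℂ (Fin 4)) : Prop :=
  (∀ i ≤ n, ContDiffOn ℝ ∞ (γ i) (Set.Icc 0 1) ∧ ∀ t ∈ Set.Icc (0 : ℝ) 1, γ i t ∈ cone F) ∧
    Submodule.span ℂ {γ 0 0} = Submodule.span ℂ {x} ∧
    Submodule.span ℂ {γ n 1} = Submodule.span ℂ {y} ∧
    ∀ i < n, Submodule.span ℂ {γ i 1} = Submodule.span ℂ {γ (i + 1) 0}

/-- Intrinsic distance in the surface: infimum of the lengths of piecewise smooth curves. -/
noncomputable def intrinsicDist (F : MvPolynomial (Fin 4) ℂ) (x y : EuclideanSpace ℂ (Fin 4)) :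
    ENNReal :=
  ⨅ (n : ℕ) (γ : ℕ → ℝ → EuclideanSpace ℂ (Fin 4)) (_ : IsPiecewiseSmoothCurve F x y n γ),
    ∑ i ∈ Finset.range (n + 1), arcLength (γ i)

/-- Intrinsic diameter of the surface `F = 0`. -/
noncomputable def intrinsicDiam (F : MvPolynomial (Fin 4) ℂ) : ENNReal :=
  ⨆ (x ∈ cone F) (y ∈ cone F), intrinsicDist F x y

/-- `D(d)`: supremum of the intrinsic diameters of the smooth surfaces of degree `d`. -/
noncomputable def maxDiam (d : ℕ) : ENNReal :=
  ⨆ (F : MvPolynomial (Fin 4) ℂ) (_ : IsSmoothSurface d F), intrinsicDiam F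

end Pool.Agent.P.MP_a3b544_ag
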