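import Pool.Agent.P.MP_a3b544_ag.Connected

/-! The linear upper bound. -/

namespace Pool.Agent.P.MP_a3b544_ag

open scoped ContDiff ENNReal Topology Polynomial
open Set MeasureTheory Filter

variable {F : MvPolynomial (Fin 4) ℂ} {d : ℕ}

/-- An orthonormal triple. -/
structure Frame (e₀ e₁ e₂ : E4) : Prop where
  n0 : ‖e₀‖ = 1
  n1 : ‖e₁‖ = 1
  n2 : ‖e₂‖ = 1
  i01 : inner ℂ e₀ e₁ = 0
  i02 : inner ℂ e₀ e₂ = 0
  i12 : inner ℂ e₁ e₂ = 0

variable {e₀ e₁ e₂ : E4}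

lemma Frame.rot (h : Frame e₀ e₁ e₂) : Frame e₁ e₂ e₀ :=
  ⟨h.n1, h.n2, h.n0, h.i12, inner_eq_zero_symm.1 h.i01, inner_eq_zero_symm.1 h.i02⟩

lemma Frame.swap (h : Frame e₀ e₁ e₂) : Frame e₀ e₂ e₁ :=
  ⟨h.n0, h.n2, h.n1, h.i02, h.i01, inner_eq_zero_symm.1 h.i12⟩

lemma Frame.inner_left (h : Frame e₀ e₁ e₂) (a x t : ℂ) :
    inner ℂ e₀ (a • e₀ + x • e₁ + t • e₂) = a := by
  simp [inner_add_right, inner_smul_right, h.i01, h.i02, h.n0]

lemma Frame.norm_sq (h : Frame e₀ e₁ e₂) (a x t : ℂ) :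
    ‖a • e₀ + x • e₁ + t • e₂‖ ^ 2 = ‖a‖ ^ 2 + ‖x‖ ^ 2 + ‖t‖ ^ 2 := by
  have h1 : inner ℂ (a • e₀) (x • e₁) = 0 := by
    simp [inner_smul_left, inner_smul_right, h.i01]
  have h2 : inner ℂ (a • e₀ + x • e₁) (t • e₂) = 0 := by
    simp [inner_add_left, inner_smul_left, inner_smul_right, h.i02, h.i12]
  rw [@norm_add_sq ℂ, @norm_add_sq ℂ, h1, h2]
  simp [norm_smul, h.n0, h.n1, h.n2]

lemma Frame.lip (h : Frame e₀ e₁ e₂) (p : E4) :
    Lip (sect F e₀ e₁ e₂) fun w => intrinsicDist F p (e₀ + w.1 • e₁ + w.2 • e₂) := by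
  intro x v s t hst hx hv hC
  have hn : ∀ a b : ℂ, 1 ≤ ‖e₀ + a • e₁ + b • e₂‖ := by
    intro a b
    have := h.norm_sq 1 a b
    rw [one_smul, norm_one] at this
    nlinarith [norm_nonneg (e₀ + a • e₁ + b • e₂), sq_nonneg ‖a‖, sq_nonneg ‖b‖]
  have hne : ∀ a b : ℂ, e₀ + a • e₁ + b • e₂ ≠ 0 := fun a b =>
    norm_pos_iff.1 (lt_of_lt_of_le one_pos (hn a b))
  refine (dist_triangle' _ (e₀ + x s • e₁ + v s • e₂) _).trans (add_le_add le_rfl ?_)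
  have k := dist_le_lintegral (F := F) (γ := fun τ => e₀ + x τ • e₁ + v τ • e₂) (a := s) (b := t)
    (by
      rw [uIcc_of_le hst]
      exact (contDiffOn_const.add (hx.smul contDiffOn_const)).add (hv.smul contDiffOn_const))
    (by rw [uIcc_of_le hst]; exact fun τ hτ => ⟨hne _ _, hC τ hτ⟩)
  refine k.trans ?_
  rw [uIcc_of_le hst]
  apply lintegral_mono_ae
  rw [← Measure.restrict_congr_set Ioo_ae_eq_Icc]
  filter_upwards [self_mem_ae_restrict measurableSet_Ioo] with τ hτ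
  have dx : HasDerivAt x (deriv x τ) τ :=
    (((hx τ ⟨hτ.1.le, hτ.2.le⟩).contDiffAt (Icc_mem_nhds hτ.1 hτ.2)).differentiableAt
      (by simp)).hasDerivAt
  have dv : HasDerivAt v (deriv v τ) τ :=
    (((hv τ ⟨hτ.1.le, hτ.2.le⟩).contDiffAt (Icc_mem_nhds hτ.1 hτ.2)).differentiableAt
      (by simp)).hasDerivAt
  have dγ : HasDerivAt (fun τ => e₀ + x τ • e₁ + v τ • e₂)
      (deriv x τ • e₁ + deriv v τ • e₂) τ :=
    ((dx.smul_const e₁).const_add e₀).add (dv.smul_const e₂)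
  rw [dγ.deriv, ← ofReal_norm, ← ofReal_norm, ← ENNReal.ofReal_add (norm_nonneg _) (norm_nonneg _)]
  apply ENNReal.ofReal_le_ofReal
  refine (fsSpeed_le _ _ (hne _ _)).trans ((div_le_self (norm_nonneg _) (hn _ _)).trans ?_)
  refine (norm_add_le _ _).trans (le_of_eq ?_)
  rw [norm_smul, norm_smul, h.n1, h.n2, mul_one, mul_one]

lemma chart_bound (hd : 1 ≤ d) (hF : IsSmoothSurface d F) (h : Frame e₀ e₁ e₂)
    (h₁ : ev F e₁ ≠ 0) (h₂ : ev F e₂ ≠ 0) (J : Finset ℕ) (z : ℕ → E4) (a x t : ℕ → ℂ)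
    (hz : ∀ j, z j = a j • e₀ + x j • e₁ + t j • e₂) (hc : ∀ j ∈ J, z j ∈ cone F)
    (hx : ∀ j ∈ J, ‖x j‖ ≤ ‖a j‖ ∧ ‖t j‖ ≤ ‖a j‖)
    (hsep : ∀ i ∈ J, ∀ j ∈ J, i ≠ j → ENNReal.ofReal (1 / 6) ≤ intrinsicDist F (z i) (z j)) :
    J.card ≤ 3359232 * d := by
  obtain ⟨Z₁, n₁⟩ := exists_nice hd hF.1 e₀ h₁ h₂
  obtain ⟨Z₂, n₂⟩ := exists_nice hd hF.1 e₀ h₂ h₁
  rw [← swap_sect] at n₂
  have hnsq : ∀ w : ℂ × ℂ, ‖e₀ + w.1 • e₁ + w.2 • e₂‖ ^ 2 = 1 + ‖w.1‖ ^ 2 + ‖w.2‖ ^ 2 := by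
    intro w
    have := h.norm_sq 1 w.1 w.2
    rwa [one_smul, norm_one, one_pow] at this
  have hne : ∀ w : ℂ × ℂ, e₀ + w.1 • e₁ + w.2 • e₂ ≠ 0 := by
    intro w h0
    have := hnsq w
    rw [h0, norm_zero] at this
    nlinarith [sq_nonneg ‖w.1‖, sq_nonneg ‖w.2‖]
  have hcs : ∀ w : ℂ × ℂ,
      coordSq e₀ (e₀ + w.1 • e₁ + w.2 • e₂) = 1 / (1 + ‖w.1‖ ^ 2 + ‖w.2‖ ^ 2) := by
    intro w
    have := h.inner_left 1 w.1 w.2
    rw [one_smul] at this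
    rw [coordSq, this, hnsq, norm_one, one_pow]
  have ha : ∀ j ∈ J, a j ≠ 0 := by
    intro j hj h0
    have k := hx j hj
    rw [h0, norm_zero, norm_le_zero_iff, norm_le_zero_iff] at k
    apply (hc j hj).1
    rw [hz, h0, k.1, k.2]; simp
  let r : ℕ → ℂ × ℂ → ℝ≥0∞ := fun j w => intrinsicDist F (z j) (e₀ + w.1 • e₁ + w.2 • e₂)
  have hfar : ∀ j ∈ J, ∀ w ∈ sect F e₀ e₁ e₂, r j w < ENNReal.ofReal (1 / 12) →
      ‖w.1‖ ≤ 3 ∧ ‖w.2‖ ≤ 3 := by
    intro j hj w _ hr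
    have k1 := (coordSq_sub_le (F := F) h.n0.le (z j) (e₀ + w.1 • e₁ + w.2 • e₂)).trans_lt hr
    rw [ENNReal.ofReal_lt_ofReal_iff (by norm_num), hcs] at k1
    have k2 : 1 / 3 ≤ coordSq e₀ (z j) := by
      have hp : 0 < ‖a j‖ := norm_pos_iff.2 (ha j hj)
      rw [coordSq, hz, h.inner_left, h.norm_sq, le_div_iff₀ (by positivity)]
      have b1 := pow_le_pow_left₀ (norm_nonneg _) (hx j hj).1 2
      have b2 := pow_le_pow_left₀ (norm_nonneg _) (hx j hj).2 2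
      linarith
    have k3 : 1 / 6 < 1 / (1 + ‖w.1‖ ^ 2 + ‖w.2‖ ^ 2) := by
      have := le_abs_self (coordSq e₀ (z j) - 1 / (1 + ‖w.1‖ ^ 2 + ‖w.2‖ ^ 2))
      linarith
    rw [one_div_lt_one_div (by norm_num) (by positivity)] at k3
    constructor <;> nlinarith [sq_nonneg ‖w.1‖, sq_nonneg ‖w.2‖, norm_nonneg w.1, norm_nonneg w.2]
  have hball : ∀ j ∈ J, ENNReal.ofReal ((1 / 12 / 18) ^ 2) ≤
      mass (sect F e₀ e₁ e₂ ∩ r j ⁻¹' Iio (ENNReal.ofReal (1 / 12))) := by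
    intro j hj
    have hu : e₀ + ((a j)⁻¹ * x j) • e₁ + ((a j)⁻¹ * t j) • e₂ = (a j)⁻¹ • z j := by
      rw [hz, smul_add, smul_add, smul_smul, smul_smul, smul_smul, inv_mul_cancel₀ (ha j hj),
        one_smul]
    refine ball_mass n₁ n₂ ?_ (h.lip (z j)) (by norm_num) (hfar j hj)
      (u₀ := ((a j)⁻¹ * x j, (a j)⁻¹ * t j)) ?_ ?_
    · exact (continuousOn_dist hF (z j)).comp (Continuous.continuousOn (by fun_prop))
        fun w hw => ⟨hne w, hw⟩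
    · change ev F _ = 0
      rw [hu]
      exact (smul_mem_cone hF.1 (inv_ne_zero (ha j hj)) (hc j hj)).2
    · simp only [r]
      rw [hu, dist_smul_right (inv_ne_zero (ha j hj)), dist_self' (hc j hj)]
  have hsum := sum_mass_le J (fun j => sect F e₀ e₁ e₂ ∩ r j ⁻¹' Iio (ENNReal.ofReal (1 / 12)))
    (sect F e₀ e₁ e₂ ∩ {w | ‖w.1‖ ≤ 3 ∧ ‖w.2‖ ≤ 3}) ?_
    fun j hj w hw => ⟨hw.1, hfar j hj w hw.1 hw.2⟩
  · have t1 : mu1 (sect F e₀ e₁ e₂ ∩ {w | ‖w.1‖ ≤ 3 ∧ ‖w.2‖ ≤ 3}) ≤ 36 * d :=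
      mu1_le (sect_fiber hF.1 e₀ e₁ h₂) inter_subset_left fun u hu => hu.2.1
    have t2 : mu2 (sect F e₀ e₁ e₂ ∩ {w | ‖w.1‖ ≤ 3 ∧ ‖w.2‖ ≤ 3}) ≤ 36 * d :=
      mu1_le (sect_fiber hF.1 e₀ e₂ h₁) (by rw [← swap_sect]; exact fun u hu => hu.1)
        fun u hu => hu.2.2
    have t3 := (Finset.sum_le_sum hball).trans (hsum.trans (add_le_add t1 t2))
    rw [Finset.sum_const, nsmul_eq_mul, ← ENNReal.ofReal_natCast, ← ENNReal.ofReal_natCast d,
      ← ENNReal.ofReal_ofNat 36, ← ENNReal.ofReal_mul (by positivity),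
      ← ENNReal.ofReal_mul (by positivity), ← ENNReal.ofReal_add (by positivity) (by positivity),
      ENNReal.ofReal_le_ofReal_iff (by positivity)] at t3
    have : (J.card : ℝ) ≤ 3359232 * d := by linarith
    exact_mod_cast this
  · intro i hi j hj hij
    refine Set.disjoint_left.2 fun w h1 h2 => ?_
    have k := (hsep i hi j hj hij).trans (dist_triangle' _ (e₀ + w.1 • e₁ + w.2 • e₂) _)
    rw [dist_comm' _ (z j)] at k
    have k2 := k.trans_lt (ENNReal.add_lt_add h1.2 h2.2)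
    rw [← ENNReal.ofReal_add (by norm_num) (by norm_num)] at k2
    norm_num at k2

lemma Frame.exists_rot (hF : F.IsHomogeneous d) (h : Frame e₀ e₁ e₂) (h₀ : ev F e₀ ≠ 0) :
    ∃ f₀ f₁, Frame f₀ f₁ e₂ ∧ ev F f₀ ≠ 0 ∧ ev F f₁ ≠ 0 ∧
      ∀ a x : ℂ, ∃ a' x' : ℂ, a • e₀ + x • e₁ = a' • f₀ + x' • f₁ := by
  obtain ⟨Q₁, -, -, q₁⟩ := exists_linePoly hF e₀ e₁
  obtain ⟨Q₂, -, q₂', q₂⟩ := exists_linePoly hF e₁ ((-1 : ℂ) • e₀)
  have n1 : Q₁ ≠ 0 := by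
    intro h0
    have := q₁ 0
    rw [h0] at this
    exact h₀ (by simpa using this.symm)
  have n2 : Q₂ ≠ 0 := by
    intro h0
    rw [h0, ev_smul hF] at q₂'
    exact h₀ (by simpa using q₂'.symm)
  have hfin : ((fun t : ℝ => (t : ℂ)) ⁻¹' {x | (Q₁ * Q₂).IsRoot x}).Finite :=
    (Polynomial.finite_setOfPred_isRoot (mul_ne_zero n1 n2)).preimage
      Complex.ofReal_injective.injOn
  obtain ⟨t, ht⟩ := hfin.exists_notMem
  simp only [mem_preimage, mem_ofPred_eq, Polynomial.IsRoot, Polynomial.eval_mul, mul_eq_zero,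
    not_or, q₁, q₂] at ht
  set c : ℝ := (√(1 + t ^ 2))⁻¹ with hc
  have hc0 : 0 < c := by positivity
  have hc2 : c ^ 2 * (1 + t ^ 2) = 1 := by
    rw [hc, inv_pow, Real.sq_sqrt (by positivity)]; field_simp
  have hc2' : (c : ℂ) ^ 2 * (1 + t ^ 2) = 1 := by exact_mod_cast hc2
  have hcne : (c : ℂ) ≠ 0 := by exact_mod_cast hc0.ne'
  have i10 : inner ℂ e₁ e₀ = 0 := inner_eq_zero_symm.1 h.i01
  refine ⟨(c : ℂ) • (e₀ + (t : ℂ) • e₁), (c : ℂ) • (e₁ + (t : ℂ) • ((-1 : ℂ) • e₀)),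
    ⟨?_, ?_, h.n2, ?_, ?_, ?_⟩, ?_, ?_, fun a x => ?_⟩
  · have := h.norm_sq 1 t 0
    simp only [one_smul, zero_smul, add_zero, norm_one, norm_zero, Complex.norm_real,
      Real.norm_eq_abs, sq_abs] at this
    refine (pow_left_inj₀ (norm_nonneg _) zero_le_one two_ne_zero).1 ?_
    rw [norm_smul, mul_pow, this, Complex.norm_real, Real.norm_eq_abs, sq_abs]
    linarith
  · have := h.norm_sq (-t) 1 0
    simp only [one_smul, zero_smul, add_zero, norm_one, norm_zero, norm_neg, Complex.norm_real,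
      Real.norm_eq_abs, sq_abs] at this
    refine (pow_left_inj₀ (norm_nonneg _) zero_le_one two_ne_zero).1 ?_
    rw [norm_smul, mul_pow, smul_smul, mul_neg_one, add_comm, this, Complex.norm_real,
      Real.norm_eq_abs, sq_abs]
    linarith
  · simp only [inner_add_left, inner_add_right, inner_smul_left, inner_smul_right, h.i01, i10,
      inner_self_eq_norm_sq_to_K, h.n0, h.n1, Complex.conj_ofReal]
    simp [mul_comm]
  · simp only [inner_add_left, inner_smul_left, h.i02, h.i12, mul_zero, add_zero]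
  · simp only [inner_add_left, inner_smul_left, h.i02, h.i12, mul_zero, add_zero]
  · rw [ev_smul hF]; exact mul_ne_zero (pow_ne_zero _ hcne) ht.1
  · rw [ev_smul hF]; exact mul_ne_zero (pow_ne_zero _ hcne) ht.2
  · refine ⟨c * (a + t * x), c * (x - t * a), ?_⟩
    have e1 : a = (c * (a + t * x)) * c - (c * (x - t * a)) * c * t := by
      linear_combination (-a) * hc2'
    have e2 : x = (c * (a + t * x)) * c * t + (c * (x - t * a)) * c := by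
      linear_combination (-x) * hc2'
    calc a • e₀ + x • e₁ = ((c * (a + t * x)) * c - (c * (x - t * a)) * c * t) • e₀ +
          ((c * (a + t * x)) * c * t + (c * (x - t * a)) * c) • e₁ := by rw [← e1, ← e2]
      _ = _ := by module

lemma exists_frame (hd : 1 ≤ d) (hF : IsSmoothSurface d F) (p q : E4) :
    ∃ e₀ e₁ e₂, Frame e₀ e₁ e₂ ∧ ev F e₀ ≠ 0 ∧ ev F e₁ ≠ 0 ∧ ev F e₂ ≠ 0 ∧
      (∃ a x t : ℂ, p = a • e₀ + x • e₁ + t • e₂) ∧ ∃ a x t : ℂ, q = a • e₀ + x • e₁ + t • e₂ := by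
  obtain ⟨o, ho⟩ : ∃ o, ev F o ≠ 0 := by
    by_contra hcon
    push Not at hcon
    have hF0 : F = 0 := MvPolynomial.funext fun x => by
      simpa [ev] using hcon (WithLp.toLp 2 x)
    obtain ⟨j, hj⟩ := hF.2 (EuclideanSpace.single 0 1) ⟨by simp, hcon _⟩
    simp [hF0] at hj
  have ho0 : o ≠ 0 := by
    rintro rfl
    have := ev_smul hF.1 0 (0 : E4)
    rw [zero_smul, zero_pow (by omega), zero_mul] at this
    exact ho this
  obtain ⟨n, hn0, hn⟩ : ∃ n : E4, n ≠ 0 ∧ n ∈ (Submodule.span ℂ {o, p, q})ᗮ := by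
    have h1 : Module.finrank ℂ (Submodule.span ℂ ({o, p, q} : Set E4)) ≤ 3 := by
      classical
      have := finrank_span_finset_le_card (R := ℂ) ({o, p, q} : Finset E4)
      rw [Set.finrank, Finset.coe_insert, Finset.coe_insert, Finset.coe_singleton] at this
      exact this.trans Finset.card_le_three
    have h2 := Submodule.finrank_add_finrank_orthogonal (Submodule.span ℂ ({o, p, q} : Set E4))
    rw [finrank_euclideanSpace, Fintype.card_fin] at h2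
    have h3 : (Submodule.span ℂ ({o, p, q} : Set E4))ᗮ ≠ ⊥ := by
      intro h; rw [h, finrank_bot] at h2; omega
    obtain ⟨n, h4, h5⟩ := (Submodule.ne_bot_iff _).1 h3
    exact ⟨n, h5, h4⟩
  have hno : ∀ y ∈ ({o, p, q} : Set E4), inner ℂ n y = 0 := fun y hy =>
    Submodule.inner_left_of_mem_orthogonal (Submodule.subset_span hy) hn
  let v : Fin 4 → E4 := fun i =>
    if i = 0 then ((‖o‖⁻¹ : ℝ) : ℂ) • o else ((‖n‖⁻¹ : ℝ) : ℂ) • n
  have hv : Orthonormal ℂ (({0, 3} : Set (Fin 4)).domRestrict v) := by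
    have a1 : ‖((‖o‖⁻¹ : ℝ) : ℂ) • o‖ = 1 := by
      rw [norm_smul, Complex.norm_real, norm_inv, norm_norm, inv_mul_cancel₀ (norm_ne_zero_iff.2 ho0)]
    have a2 : ‖((‖n‖⁻¹ : ℝ) : ℂ) • n‖ = 1 := by
      rw [norm_smul, Complex.norm_real, norm_inv, norm_norm, inv_mul_cancel₀ (norm_ne_zero_iff.2 hn0)]
    have a3 : inner ℂ n o = 0 := hno o (by simp)
    have a4 : inner ℂ o n = 0 := inner_eq_zero_symm.1 a3
    constructor
    · rintro ⟨i, rfl | rfl⟩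
      · exact a1
      · exact a2
    · rintro ⟨i, rfl | rfl⟩ ⟨j, rfl | rfl⟩ hij
      · exact absurd rfl hij
      · change inner ℂ (((‖o‖⁻¹ : ℝ) : ℂ) • o) (((‖n‖⁻¹ : ℝ) : ℂ) • n) = 0
        rw [inner_smul_left, inner_smul_right, a4, mul_zero, mul_zero]
      · change inner ℂ (((‖n‖⁻¹ : ℝ) : ℂ) • n) (((‖o‖⁻¹ : ℝ) : ℂ) • o) = 0
        rw [inner_smul_left, inner_smul_right, a3, mul_zero, mul_zero]
      · exact absurd rfl hij
  obtain ⟨b, hb⟩ := hv.exists_orthonormalBasis_extension_of_card_eq (by simp)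
  have b0 : b 0 = ((‖o‖⁻¹ : ℝ) : ℂ) • o := hb 0 (by simp)
  have b3 : b 3 = ((‖n‖⁻¹ : ℝ) : ℂ) • n := hb 3 (by simp)
  have fr : Frame (b 0) (b 1) (b 2) :=
    ⟨b.orthonormal.1 _, b.orthonormal.1 _, b.orthonormal.1 _, b.orthonormal.2 (by decide),
      b.orthonormal.2 (by decide), b.orthonormal.2 (by decide)⟩
  have hspan : ∀ y ∈ ({o, p, q} : Set E4), ∃ a x t : ℂ, y = a • b 0 + x • b 1 + t • b 2 := by
    intro y hy
    have := b.sum_repr' y
    rw [Fin.sum_univ_four, b3, inner_smul_left, hno y hy, mul_zero, zero_smul, add_zero] at this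
    exact ⟨_, _, _, this.symm⟩
  have e0 : ev F (b 0) ≠ 0 := by
    rw [b0, ev_smul hF.1]
    refine mul_ne_zero (pow_ne_zero _ ?_) ho
    exact_mod_cast inv_ne_zero (norm_ne_zero_iff.2 ho0)
  obtain ⟨f₀, f₁, fr₁, k0, k1, s₁⟩ := fr.exists_rot hF.1 e0
  obtain ⟨g₀, g₂, fr₂, l0, l2, s₂⟩ := fr₁.swap.exists_rot hF.1 k0
  have hspan' : ∀ y ∈ ({o, p, q} : Set E4), ∃ a x t : ℂ, y = a • g₀ + x • g₂ + t • f₁ := by
    intro y hy
    obtain ⟨a, x, t, rfl⟩ := hspan y hy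
    obtain ⟨a', x', h1⟩ := s₁ a x
    obtain ⟨a'', t', h2⟩ := s₂ a' t
    exact ⟨a'', t', x', by rw [h1, ← h2]; abel⟩
  exact ⟨g₀, g₂, f₁, fr₂, l0, l2, k1, hspan' p (by simp), hspan' q (by simp)⟩

theorem dist_upper (hd : 1 ≤ d) (hF : IsSmoothSurface d F) {p q : E4} (hp : p ∈ cone F)
    (hq : q ∈ cone F) : intrinsicDist F p q ≤ ENNReal.ofReal (2000000 * d) := by
  classical
  by_contra hcon
  push Not at hcon
  obtain ⟨e₀, e₁, e₂, fr, h₀, h₁, h₂, ⟨a₁, x₁, t₁, hp'⟩, ⟨a₂, x₂, t₂, hq'⟩⟩ :=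
    exists_frame hd hF p q
  set M := 3 * (3359232 * d) + 1 with hM
  have hlev : ∀ j : ℕ, ∃ (w : ℂ × ℂ) (T : ℂ), j < M → pt e₀ e₁ e₂ w T ∈ cone F ∧
      intrinsicDist F p (pt e₀ e₁ e₂ w T) = ENNReal.ofReal ((j + 1) / 6) := by
    intro j
    by_cases hj : j < M
    swap
    · exact ⟨0, 0, fun h => absurd h hj⟩
    obtain ⟨w, T, h⟩ := exists_level hd hF.1 (e₀ := e₀) (e₁ := e₁) h₂ (fun w T hw h0 => by
        have := fr.norm_sq w.1 w.2 T
        rw [show w.1 • e₀ + w.2 • e₁ + T • e₂ = 0 from h0, norm_zero] at this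
        apply hw
        have a1 : ‖w.1‖ ^ 2 = 0 := by nlinarith [sq_nonneg ‖w.1‖, sq_nonneg ‖w.2‖, sq_nonneg ‖T‖]
        have a2 : ‖w.2‖ ^ 2 = 0 := by nlinarith [sq_nonneg ‖w.1‖, sq_nonneg ‖w.2‖, sq_nonneg ‖T‖]
        exact Prod.ext (by simpa using a1) (by simpa using a2))
      (continuousOn_dist hF p) (fun c z hc => dist_smul_right hc)
      (s := ENNReal.ofReal ((j + 1) / 6)) (w₁ := (a₁, x₁)) (T₁ := t₁) (w₂ := (a₂, x₂)) (T₂ := t₂)
      (by rw [show pt e₀ e₁ e₂ (a₁, x₁) t₁ = p from hp'.symm]; exact hp)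
      (by rw [show pt e₀ e₁ e₂ (a₂, x₂) t₂ = q from hq'.symm]; exact hq)
      (by
        rw [show pt e₀ e₁ e₂ (a₁, x₁) t₁ = p from hp'.symm, dist_self' hp, ENNReal.ofReal_pos]
        positivity)
      (by
        rw [show pt e₀ e₁ e₂ (a₂, x₂) t₂ = q from hq'.symm]
        refine le_trans (ENNReal.ofReal_le_ofReal ?_) hcon.le
        have k1 : j + 1 ≤ 12000000 * d := by omega
        have k2 : (j + 1 : ℝ) ≤ 12000000 * d := by exact_mod_cast k1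
        linarith)
    exact ⟨w, T, fun _ => h⟩
  choose w T hw using hlev
  let z : ℕ → E4 := fun j => pt e₀ e₁ e₂ (w j) (T j)
  have hsep : ∀ i, i < M → ∀ j, j < M → i ≠ j →
      ENNReal.ofReal (1 / 6) ≤ intrinsicDist F (z i) (z j) := by
    have aux : ∀ i, i < M → ∀ j, j < M → i < j →
        ENNReal.ofReal (1 / 6) ≤ intrinsicDist F (z i) (z j) := by
      intro i hi j hj hij
      have k := dist_triangle' (F := F) p (z i) (z j)
      rw [(hw i hi).2, (hw j hj).2, ← tsub_le_iff_left, ← ENNReal.ofReal_sub _ (by positivity)] at k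
      refine le_trans (ENNReal.ofReal_le_ofReal ?_) k
      have : (i + 1 : ℝ) ≤ j := by exact_mod_cast hij
      linarith
    intro i hi j hj hij
    rcases lt_or_gt_of_ne hij with h | h
    · exact aux i hi j hj h
    · rw [dist_comm']; exact aux j hj i hi h
  let J : (ℕ → Prop) → Finset ℕ := fun P => (Finset.range M).filter P
  have hJ : ∀ P j, j ∈ J P → j < M ∧ P j := fun P j hj => by simpa [J] using hj
  have c0 := chart_bound hd hF fr h₁ h₂ (J fun j => ‖(w j).2‖ ≤ ‖(w j).1‖ ∧ ‖T j‖ ≤ ‖(w j).1‖) z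
    (fun j => (w j).1) (fun j => (w j).2) T (fun j => rfl) (fun j hj => (hw j (hJ _ j hj).1).1)
    (fun j hj => (hJ _ j hj).2) fun i hi j hj => hsep i (hJ _ i hi).1 j (hJ _ j hj).1
  have c1 := chart_bound hd hF fr.rot h₂ h₀ (J fun j => ‖T j‖ ≤ ‖(w j).2‖ ∧ ‖(w j).1‖ ≤ ‖(w j).2‖)
    z (fun j => (w j).2) T (fun j => (w j).1) (fun j => by simp only [z, pt]; abel)
    (fun j hj => (hw j (hJ _ j hj).1).1)
    (fun j hj => (hJ _ j hj).2) fun i hi j hj => hsep i (hJ _ i hi).1 j (hJ _ j hj).1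
  have c2 := chart_bound hd hF fr.rot.rot h₀ h₁ (J fun j => ‖(w j).1‖ ≤ ‖T j‖ ∧ ‖(w j).2‖ ≤ ‖T j‖)
    z T (fun j => (w j).1) (fun j => (w j).2) (fun j => by simp only [z, pt]; abel)
    (fun j hj => (hw j (hJ _ j hj).1).1)
    (fun j hj => (hJ _ j hj).2) fun i hi j hj => hsep i (hJ _ i hi).1 j (hJ _ j hj).1
  have hcov : Finset.range M ⊆
      J (fun j => ‖(w j).2‖ ≤ ‖(w j).1‖ ∧ ‖T j‖ ≤ ‖(w j).1‖) ∪
      J (fun j => ‖T j‖ ≤ ‖(w j).2‖ ∧ ‖(w j).1‖ ≤ ‖(w j).2‖) ∪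
      J (fun j => ‖(w j).1‖ ≤ ‖T j‖ ∧ ‖(w j).2‖ ≤ ‖T j‖) := by
    intro j hj
    simp only [J, Finset.mem_union, Finset.mem_filter, hj, true_and]
    rcases le_total ‖(w j).1‖ ‖(w j).2‖ with a | a <;> rcases le_total ‖(w j).2‖ ‖T j‖ with b | b <;>
      rcases le_total ‖(w j).1‖ ‖T j‖ with c | c <;>
      first
      | exact Or.inl (Or.inl ⟨by linarith, by linarith⟩)
      | exact Or.inl (Or.inr ⟨by linarith, by linarith⟩)
      | exact Or.inr ⟨by linarith, by linarith⟩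
  have := (Finset.card_le_card hcov).trans ((Finset.card_union_le _ _).trans
    (add_le_add (Finset.card_union_le _ _) le_rfl))
  rw [Finset.card_range] at this
  omega

theorem upper_bound (hd : 1 ≤ d) : maxDiam d ≤ ENNReal.ofReal (2000000 * d) :=
  iSup₂_le fun _ hF => iSup₂_le fun _ hp => iSup₂_le fun _ hq => dist_upper hd hF hp hq

end Pool.Agent.P.MP_a3b544_ag
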