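import Pool.Agent.P.MP_a3b544_ag.Local

/-! The linear lower bound. -/

namespace Pool.Agent.P.MP_a3b544_ag

open scoped ContDiff ENNReal Topology Polynomial
open Set MeasureTheory Submodule Filter MvPolynomial

/-- Standard basis vectors. -/
noncomputable def ee (i : Fin 4) : E4 := EuclideanSpace.single i (1 : ℂ)

lemma norm_ee (i : Fin 4) : ‖ee i‖ = 1 := by simp [ee]

lemma coordSq_ee (i : Fin 4) (z : E4) : coordSq (ee i) z = ‖z i‖ ^ 2 / ‖z‖ ^ 2 := by
  simp [coordSq, ee, EuclideanSpace.inner_single_left]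

lemma sum_coordSq {z : E4} (hz : z ≠ 0) :
    coordSq (ee 0) z + coordSq (ee 1) z + coordSq (ee 2) z + coordSq (ee 3) z = 1 := by
  simp only [coordSq_ee]
  have h : ‖z‖ ^ 2 ≠ 0 := pow_ne_zero _ (norm_ne_zero_iff.2 hz)
  field_simp
  rw [EuclideanSpace.norm_sq_eq, Fin.sum_univ_four]

/-- The coordinate attached to the level `k`. -/
def xi (k : ℕ) : Fin 4 := ⟨k % 3, by omega⟩

lemma sum_coordSq_xi {z : E4} (hz : z ≠ 0) (k : ℕ) :
    coordSq (ee (xi k)) z + coordSq (ee (xi (k + 1))) z + coordSq (ee (xi (k + 2))) z +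
      coordSq (ee 3) z = 1 := by
  rw [← sum_coordSq hz]
  have : k % 3 = 0 ∨ k % 3 = 1 ∨ k % 3 = 2 := by omega
  rcases this with h | h | h
  · have h0 : xi k = 0 := Fin.ext (by simp [xi, h])
    have h1 : xi (k + 1) = 1 := Fin.ext (by simp [xi]; omega)
    have h2 : xi (k + 2) = 2 := Fin.ext (by simp [xi]; omega)
    rw [h0, h1, h2]
  · have h0 : xi k = 1 := Fin.ext (by simp [xi, h])
    have h1 : xi (k + 1) = 2 := Fin.ext (by simp [xi]; omega)
    have h2 : xi (k + 2) = 0 := Fin.ext (by simp [xi]; omega)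
    rw [h0, h1, h2]; ring
  · have h0 : xi k = 2 := Fin.ext (by simp [xi, h])
    have h1 : xi (k + 1) = 0 := Fin.ext (by simp [xi]; omega)
    have h2 : xi (k + 2) = 1 := Fin.ext (by simp [xi]; omega)
    rw [h0, h1, h2]; ring

lemma dist_ge_of_levels {F : MvPolynomial (Fin 4) ℂ} {d : ℕ} {l : ℕ → ℝ} (hl : Antitone l)
    (hl0 : ∀ k, 0 ≤ l k) (hl1 : l 1 ≤ 1 / 16)
    (hlev : ∀ k, 1 ≤ k → k ≤ d → ∀ z ∈ cone F, coordSq (ee 3) z = l k →
      coordSq (ee (xi k)) z ≤ 1 / 16)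
    {y : E4} (hy : coordSq (ee 3) y = 0) (m : ℕ) :
    ∀ k x, 1 ≤ k → k + 2 * m ≤ d → x ∈ cone F → coordSq (ee 3) x = l k →
      ENNReal.ofReal (3 / 8 * m) ≤ intrinsicDist F x y := by
  induction m with
  | zero => intro k x _ _ _ _; simp
  | succ m ih =>
    intro k x hk hkd hx hxl
    refine le_trans ?_ (split_level (ee 3) (l (k + 1)) (x := x) (y := y)
      (by rw [hxl]; exact hl (by omega)) (by rw [hy]; exact hl0 _))
    refine le_iInf₂ fun w₁ hw₁ => ?_
    rw [← tsub_le_iff_left]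
    refine le_trans ?_ (split_level (ee 3) (l (k + 2)) (x := w₁) (y := y)
      (by rw [hw₁.2]; exact hl (by omega)) (by rw [hy]; exact hl0 _))
    refine le_iInf₂ fun w₂ hw₂ => ?_
    rw [tsub_le_iff_left]
    have h1 := coordSq_sub_le (F := F) (norm_ee (xi k)).le x w₁
    have h2 := coordSq_sub_le (F := F) (norm_ee (xi (k + 2))).le w₁ w₂
    have h3 := ih (k + 2) w₂ (by omega) (by omega) hw₂.1 hw₂.2
    refine le_trans ?_ (add_le_add h1 (add_le_add h2 h3))
    rw [← ENNReal.ofReal_add (by positivity) (by positivity),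
      ← ENNReal.ofReal_add (by positivity) (by positivity)]
    apply ENNReal.ofReal_le_ofReal
    have a1 := hlev k hk (by omega) x hx hxl
    have a2 := hlev (k + 1) (by omega) (by omega) w₁ hw₁.1 hw₁.2
    have a3 := hlev (k + 2) (by omega) (by omega) w₂ hw₂.1 hw₂.2
    have a4 := sum_coordSq_xi hw₁.1.1 k
    have a5 : coordSq (ee 3) w₁ ≤ 1 / 16 := by rw [hw₁.2]; exact (hl (by omega)).trans hl1
    have a6 := neg_le_abs (coordSq (ee (xi k)) x - coordSq (ee (xi k)) w₁)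
    have a7 := le_abs_self (coordSq (ee (xi (k + 2))) w₁ - coordSq (ee (xi (k + 2))) w₂)
    push_cast
    linarith

/-- The zigzag form. -/
noncomputable def zigzag (ε : ℝ) (d : ℕ) : MvPolynomial (Fin 4) ℂ :=
  ∑ k ∈ Finset.Icc 1 d, C ((ε : ℂ) ^ (k ^ 2)) * (X (xi k) ^ k * X 3 ^ (d - k))

/-- Monomials used for perturbation. -/
noncomputable def pm (d : ℕ) (p : Fin 4 × Fin 3) : MvPolynomial (Fin 4) ℂ :=
  X p.1 * X p.2.castSucc ^ (d - 1)

/-- A perturbed form. -/
noncomputable def pert (G : MvPolynomial (Fin 4) ℂ) (d : ℕ) (c : Fin 4 × Fin 3 → ℂ) :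
    MvPolynomial (Fin 4) ℂ := G + ∑ p, C (c p) * pm d p

lemma zigzag_hom (ε : ℝ) (d : ℕ) : (zigzag ε d).IsHomogeneous d := by
  refine IsHomogeneous.sum _ _ _ fun k hk => IsHomogeneous.C_mul ?_ _
  have := (isHomogeneous_X_pow (R := ℂ) (xi k) k).mul (isHomogeneous_X_pow (3 : Fin 4) (d - k))
  rwa [Nat.add_sub_cancel' (Finset.mem_Icc.1 hk).2] at this

lemma pert_hom {G : MvPolynomial (Fin 4) ℂ} {d : ℕ} (hd : 1 ≤ d) (hG : G.IsHomogeneous d)
    (c : Fin 4 × Fin 3 → ℂ) : (pert G d c).IsHomogeneous d := by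
  refine hG.add (IsHomogeneous.sum _ _ _ fun p _ => IsHomogeneous.C_mul ?_ _)
  have := (isHomogeneous_X ℂ p.1).mul (isHomogeneous_X_pow (p.2.castSucc) (d - 1))
  rwa [Nat.add_sub_cancel' hd] at this

lemma eval_pert (G : MvPolynomial (Fin 4) ℂ) (d : ℕ) (c : Fin 4 × Fin 3 → ℂ) (z : Fin 4 → ℂ) :
    eval z (pert G d c) = eval z G + ∑ p, c p * eval z (pm d p) := by
  simp [pert]

lemma eval_pderiv_pert (G : MvPolynomial (Fin 4) ℂ) (d : ℕ) (c : Fin 4 × Fin 3 → ℂ)
    (z : Fin 4 → ℂ) (i : Fin 4) :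
    eval z (pderiv i (pert G d c)) =
      eval z (pderiv i G) + ∑ p, c p * eval z (pderiv i (pm d p)) := by
  simp [pert, map_sum]

lemma contDiff_eval (Q : MvPolynomial (Fin 4) ℂ) :
    ContDiff ℝ 1 (fun z : Fin 4 → ℂ => eval z Q) := by
  have : ContDiff ℂ 1 (fun z : Fin 4 → ℂ => eval z Q) :=
    (AnalyticOnNhd.eval_mvPolynomial Q).contDiff
  exact this.restrict_scalars ℝ

/-- The parameters for which the perturbed form is singular at a point of the chart `j`. -/
def badSet (G : MvPolynomial (Fin 4) ℂ) (d : ℕ) (j : Fin 3) : Set (Fin 4 × Fin 3 → ℂ) :=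
  {c | ∃ z : Fin 4 → ℂ, z j.castSucc = 1 ∧ eval z (pert G d c) = 0 ∧
    ∀ i, eval z (pderiv i (pert G d c)) = 0}

lemma card_aux : ∀ j : Fin 3, Fintype.card {p : Fin 4 × Fin 3 // p.2 ≠ j} = 8 := by decide

lemma dimH_badSet (G : MvPolynomial (Fin 4) ℂ) (d : ℕ) (j : Fin 3) :
    dimH (badSet G d j) ≤ 22 := by
  classical
  let Z : ({i : Fin 4 // i ≠ j.castSucc} → ℂ) → Fin 4 → ℂ :=
    fun y i => if h : i = j.castSucc then 1 else y ⟨i, h⟩
  let C0 : ({p : Fin 4 × Fin 3 // p.2 ≠ j} → ℂ) → Fin 4 × Fin 3 → ℂ :=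
    fun c p => if h : p.2 = j then 0 else c ⟨p, h⟩
  have hZ : ContDiff ℝ 1 Z := by
    refine contDiff_pi.2 fun i => ?_
    by_cases h : i = j.castSucc <;> simp only [Z, h, dite_true, dite_false] <;> fun_prop
  have hC : ContDiff ℝ 1 C0 := by
    refine contDiff_pi.2 fun p => ?_
    by_cases h : p.2 = j <;> simp only [C0, h, dite_true, dite_false] <;> fun_prop
  let Θ : ({i : Fin 4 // i ≠ j.castSucc} → ℂ) × ({p : Fin 4 × Fin 3 // p.2 ≠ j} → ℂ) →
      Fin 4 × Fin 3 → ℂ := fun q p =>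
    if p.2 = j then
      (if p.1 = j.castSucc then
        -eval (Z q.1) (pert G d (C0 q.2)) + ∑ i ∈ Finset.univ.erase j.castSucc,
          eval (Z q.1) (pderiv i (pert G d (C0 q.2))) * Z q.1 i
      else -eval (Z q.1) (pderiv p.1 (pert G d (C0 q.2))))
    else C0 q.2 p
  have hE : ∀ Q : MvPolynomial (Fin 4) ℂ, ContDiff ℝ 1
      (fun q : ({i : Fin 4 // i ≠ j.castSucc} → ℂ) × ({p : Fin 4 × Fin 3 // p.2 ≠ j} → ℂ) =>
        eval (Z q.1) Q) := fun Q => (contDiff_eval Q).comp (hZ.comp contDiff_fst)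
  have hCp : ∀ p, ContDiff ℝ 1
      (fun q : ({i : Fin 4 // i ≠ j.castSucc} → ℂ) × ({p : Fin 4 × Fin 3 // p.2 ≠ j} → ℂ) =>
        C0 q.2 p) := fun p => (contDiff_pi.1 hC p).comp contDiff_snd
  have hZi : ∀ i, ContDiff ℝ 1
      (fun q : ({i : Fin 4 // i ≠ j.castSucc} → ℂ) × ({p : Fin 4 × Fin 3 // p.2 ≠ j} → ℂ) =>
        Z q.1 i) := fun i => (contDiff_pi.1 hZ i).comp contDiff_fst
  have hP : ContDiff ℝ 1
      (fun q : ({i : Fin 4 // i ≠ j.castSucc} → ℂ) × ({p : Fin 4 × Fin 3 // p.2 ≠ j} → ℂ) =>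
        eval (Z q.1) (pert G d (C0 q.2))) := by
    simp only [eval_pert]
    exact (hE _).add (ContDiff.sum fun p _ => (hCp p).mul (hE _))
  have hD : ∀ i, ContDiff ℝ 1
      (fun q : ({i : Fin 4 // i ≠ j.castSucc} → ℂ) × ({p : Fin 4 × Fin 3 // p.2 ≠ j} → ℂ) =>
        eval (Z q.1) (pderiv i (pert G d (C0 q.2)))) := by
    intro i
    simp only [eval_pderiv_pert]
    exact (hE _).add (ContDiff.sum fun p _ => (hCp p).mul (hE _))
  have hΘ : ContDiff ℝ 1 Θ := by
    refine contDiff_pi.2 fun p => ?_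
    simp only [Θ]
    split_ifs
    · exact hP.neg.add (ContDiff.sum fun i _ => (hD i).mul (hZi i))
    · exact (hD _).neg
    · exact hCp p
  have hsub : badSet G d j ⊆ range Θ := by
    rintro c ⟨z, hz1, hz2, hz3⟩
    refine ⟨(fun i => z i, fun p => c p), ?_⟩
    have eZ : Z (fun i => z i) = z := by
      ext i; simp only [Z]; split_ifs with h
      · rw [h, hz1]
      · rfl
    set c0 := C0 (fun p => c p) with hc0
    have hsplit : ∀ M : Fin 4 × Fin 3 → ℂ,
        ∑ p, c p * M p = ∑ p, c0 p * M p + ∑ i, c (i, j) * M (i, j) := by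
      intro M
      have : ∑ i, c (i, j) * M (i, j) = ∑ p : Fin 4 × Fin 3, (if p.2 = j then c p else 0) * M p := by
        rw [Fintype.sum_prod_type]
        simp
      rw [this, ← Finset.sum_add_distrib]
      refine Finset.sum_congr rfl fun p _ => ?_
      simp only [hc0, C0]
      split_ifs <;> simp
    have k1 : ∀ i, i ≠ j.castSucc → eval z (pderiv i (pert G d c0)) = -c (i, j) := by
      intro i hi
      have h := hz3 i
      rw [eval_pderiv_pert, hsplit, ← add_assoc, ← eval_pderiv_pert] at h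
      have : ∑ i', c (i', j) * eval z (pderiv i (pm d (i', j))) = c (i, j) := by
        rw [Finset.sum_eq_single i]
        · simp [pm, pderiv_X_of_ne hi.symm, hz1]
        · intro i' _ hi'
          simp [pm, pderiv_X_of_ne hi.symm, pderiv_X_of_ne hi']
        · simp
      rw [this] at h
      exact eq_neg_of_add_eq_zero_left h
    have k2 : eval z (pert G d c0) + ∑ i, c (i, j) * z i = 0 := by
      have h := hz2
      rw [eval_pert, hsplit, ← add_assoc, ← eval_pert] at h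
      simpa [pm, hz1] using h
    ext ⟨i, j'⟩
    simp only [Θ, eZ, ← hc0]
    split_ifs with h1 h2
    · subst h1 h2
      rw [← Finset.add_sum_erase _ _ (Finset.mem_univ j'.castSucc), hz1, mul_one] at k2
      rw [Finset.sum_congr rfl fun i hi => by rw [k1 i (Finset.ne_of_mem_erase hi)]]
      simp only [neg_mul, Finset.sum_neg_distrib]
      linear_combination -k2
    · subst h1
      rw [k1 i h2, neg_neg]
    · simp [hc0, C0, h1]
  refine (dimH_mono hsub).trans (hΘ.dimH_range_le.trans (le_of_eq ?_))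
  rw [Module.finrank_prod, Module.finrank_pi_fintype, Module.finrank_pi_fintype]
  simp only [Complex.finrank_real_complex, Finset.sum_const, Finset.card_univ, smul_eq_mul]
  have c1 : Fintype.card {i : Fin 4 // i ≠ j.castSucc} = 3 := by simp
  have c2 : Fintype.card {p : Fin 4 × Fin 3 // p.2 ≠ j} = 8 := card_aux j
  rw [c1, c2]
  norm_num

lemma exists_good_param (G : MvPolynomial (Fin 4) ℂ) (d : ℕ) {η : ℝ} (hη : 0 < η) :
    ∃ c : Fin 4 × Fin 3 → ℂ, ‖c‖ < η ∧ ∀ j, c ∉ badSet G d j := by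
  have h : dimH (⋃ j, badSet G d j) < Module.finrank ℝ (Fin 4 × Fin 3 → ℂ) := by
    rw [dimH_iUnion, Module.finrank_pi_fintype]
    refine lt_of_le_of_lt (iSup_le fun j => dimH_badSet G d j) ?_
    simp only [Complex.finrank_real_complex, Finset.sum_const, Finset.card_univ, smul_eq_mul,
      Fintype.card_prod, Fintype.card_fin]
    norm_num
  obtain ⟨c, hc1, hc2⟩ := (dense_compl_of_dimH_lt_finrank h).exists_mem_open Metric.isOpen_ball
    ⟨0, Metric.mem_ball_self hη⟩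
  exact ⟨c, by simpa using hc2, fun j hj => hc1 (mem_iUnion.2 ⟨j, hj⟩)⟩

lemma smooth_pert {ε : ℝ} (hε : 0 < ε) {d : ℕ} (hd : 3 ≤ d) {c : Fin 4 × Fin 3 → ℂ}
    (hc : ∀ j, c ∉ badSet (zigzag ε d) d j) : IsSmoothSurface d (pert (zigzag ε d) d c) := by
  have hom := pert_hom (by omega) (zigzag_hom ε d) c
  refine ⟨hom, fun z hz => ?_⟩
  by_contra hcon
  push Not at hcon
  by_cases h : ∃ j : Fin 3, z j.castSucc ≠ 0
  · obtain ⟨j, hj⟩ := h
    refine hc j ⟨fun i => ((z j.castSucc)⁻¹ • z) i, by simp [hj], ?_, fun i => ?_⟩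
    · exact (smul_mem_cone hom (inv_ne_zero hj) hz).2
    · have := ev_smul (hom.pderiv (i := i)) (z j.castSucc)⁻¹ z
      unfold ev at this
      rw [this, hcon i, mul_zero]
  · push Not at h
    have h3 : z 3 ≠ 0 := by
      intro h3
      apply hz.1
      ext i
      fin_cases i
      · exact h 0
      · exact h 1
      · exact h 2
      · exact h3
    have h1 := hcon 1
    rw [eval_pderiv_pert] at h1
    have e1 : ∀ p, eval (fun i => z i) (pderiv 1 (pm d p)) = 0 := by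
      intro p
      have a1 : d - 1 ≠ 0 := by omega
      have a2 : d - 1 - 1 ≠ 0 := by omega
      simp [pm, h p.2, a1, a2]
    have hxi : ∀ k, z (xi k) = 0 := fun k => h ⟨k % 3, by omega⟩
    have e2 : eval (fun i => z i) (pderiv 1 (zigzag ε d)) = ε * z 3 ^ (d - 1) := by
      simp only [zigzag, map_sum, pderiv_C_mul]
      rw [Finset.sum_eq_single 1]
      · have : xi 1 = 1 := rfl
        have h31 : (3 : Fin 4) ≠ 1 := by decide
        simp [this, pderiv_X_of_ne h31]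
      · intro k hk hk1
        have a0 := (Finset.mem_Icc.1 hk).1
        have a1 : k ≠ 0 := by omega
        have a2 : k - 1 ≠ 0 := by omega
        simp [hxi k, a2, a1]
      · intro h1; exact absurd (Finset.mem_Icc.2 ⟨le_rfl, by omega⟩) h1
    simp [e1, e2, h3, hε.ne'] at h1

lemma level_estimate {ε : ℝ} (hε : 0 < ε) {d : ℕ} (hεd : (d + 1) * ε * 4 ^ d ≤ 1)
    {c : Fin 4 × Fin 3 → ℂ} (hc : ‖c‖ < ε ^ (d ^ 2 + 1) / 12) {k : ℕ} (hk : 1 ≤ k) (hkd : k ≤ d)
    {z : E4} (hz : z ∈ cone (pert (zigzag ε d) d c)) (hl : coordSq (ee 3) z = ε ^ (4 * k)) :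
    coordSq (ee (xi k)) z ≤ 1 / 16 := by
  by_contra hcon
  push Not at hcon
  have hN : 0 < ‖z‖ := norm_pos_iff.2 hz.1
  set N := ‖z‖ with hNdef
  have hε1 : ε ≤ 1 := by
    have h1 : (1 : ℝ) ≤ 4 ^ d := one_le_pow₀ (by norm_num)
    have h2 : (1 : ℝ) ≤ d + 1 := by linarith [Nat.cast_nonneg (α := ℝ) d]
    nlinarith [mul_le_mul h2 h1 zero_le_one (by positivity)]
  have h3 : ‖z 3‖ = ε ^ (2 * k) * N := by
    rw [coordSq_ee, div_eq_iff (by positivity)] at hl
    refine (pow_left_inj₀ (norm_nonneg _) (by positivity) two_ne_zero).1 ?_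
    rw [hl]; ring
  have hk4 : N / 4 ≤ ‖z (xi k)‖ := by
    rw [coordSq_ee, lt_div_iff₀ (by positivity)] at hcon
    refine (pow_le_pow_iff_left₀ (by positivity) (norm_nonneg _) two_ne_zero).1 ?_
    linarith
  have hle : ∀ i, ‖z i‖ ≤ N := fun i => PiLp.norm_apply_le z i
  set A := k ^ 2 + 2 * k * (d - k) with hA
  let T : ℕ → ℂ := fun j => (ε : ℂ) ^ (j ^ 2) * (z (xi j) ^ j * z 3 ^ (d - j))
  have hT : ∀ j, ‖T j‖ = ε ^ (j ^ 2) * (‖z (xi j)‖ ^ j * (ε ^ (2 * k) * N) ^ (d - j)) := by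
    intro j
    simp only [T, norm_mul, norm_pow, h3, Complex.norm_real, Real.norm_of_nonneg hε.le]
  have hTk : ε ^ A * N ^ d / 4 ^ d ≤ ‖T k‖ := by
    rw [hT]
    calc ε ^ A * N ^ d / 4 ^ d ≤ ε ^ A * N ^ d / 4 ^ k := by
          gcongr; norm_num
      _ = ε ^ (k ^ 2) * ((N / 4) ^ k * (ε ^ (2 * k) * N) ^ (d - k)) := by
          rw [hA, pow_add, mul_pow, ← pow_mul, div_pow]
          have : N ^ d = N ^ k * N ^ (d - k) := by rw [← pow_add, Nat.add_sub_cancel' hkd]
          rw [this]; ring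
      _ ≤ _ := by gcongr
  have hTj : ∀ j ∈ (Finset.Icc 1 d).erase k, ‖T j‖ ≤ ε ^ (A + 1) * N ^ d := by
    intro j hj
    have hjk := Finset.ne_of_mem_erase hj
    have hjd := (Finset.mem_Icc.1 (Finset.mem_of_mem_erase hj)).2
    rw [hT]
    have hexp : A + 1 ≤ j ^ 2 + 2 * k * (d - j) := by
      rw [hA]
      zify [hkd, hjd]
      have : (j : ℤ) - k ≠ 0 := sub_ne_zero.2 (by exact_mod_cast hjk)
      nlinarith [Int.one_le_abs this, sq_abs ((j : ℤ) - k), abs_nonneg ((j : ℤ) - k)]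
    calc ε ^ (j ^ 2) * (‖z (xi j)‖ ^ j * (ε ^ (2 * k) * N) ^ (d - j))
        ≤ ε ^ (j ^ 2) * (N ^ j * (ε ^ (2 * k) * N) ^ (d - j)) := by gcongr; exact hle _
      _ = ε ^ (j ^ 2 + 2 * k * (d - j)) * N ^ d := by
          rw [pow_add, mul_pow, ← pow_mul]
          have : N ^ d = N ^ j * N ^ (d - j) := by rw [← pow_add, Nat.add_sub_cancel' hjd]
          rw [this]; ring
      _ ≤ ε ^ (A + 1) * N ^ d := by
          gcongr ?_ * _
          exact pow_le_pow_of_le_one hε.le hε1 hexp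
  have hP : ‖∑ p, c p * eval (fun i => z i) (pm d p)‖ ≤ ε ^ (A + 1) * N ^ d := by
    have h1 : ∀ p, ‖c p * eval (fun i => z i) (pm d p)‖ ≤ ε ^ (d ^ 2 + 1) / 12 * N ^ d := by
      intro p
      rw [norm_mul]
      have a1 : ‖c p‖ ≤ ε ^ (d ^ 2 + 1) / 12 := (norm_le_pi_norm c p).trans hc.le
      have a2 : ‖eval (fun i => z i) (pm d p)‖ ≤ N ^ d := by
        simp only [pm, map_mul, map_pow, eval_X, norm_mul, norm_pow]
        calc ‖z p.1‖ * ‖z p.2.castSucc‖ ^ (d - 1) ≤ N * N ^ (d - 1) := by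
              gcongr <;> exact hle _
          _ = N ^ d := by rw [← pow_succ', Nat.sub_add_cancel (by omega)]
      gcongr
    refine (norm_sum_le _ _).trans ((Finset.sum_le_sum fun p _ => h1 p).trans ?_)
    simp only [Finset.sum_const, Finset.card_univ, Fintype.card_prod, Fintype.card_fin,
      nsmul_eq_mul]
    have hexp : A + 1 ≤ d ^ 2 + 1 := by
      rw [hA]
      zify [hkd]
      nlinarith [sq_nonneg ((d : ℤ) - k)]
    have := pow_le_pow_of_le_one hε.le hε1 hexp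
    push_cast
    nlinarith [pow_pos hN d]
  have h0 := hz.2
  rw [eval_pert] at h0
  have hZ : eval (fun i => z i) (zigzag ε d) = T k + ∑ j ∈ (Finset.Icc 1 d).erase k, T j := by
    rw [Finset.add_sum_erase _ _ (Finset.mem_Icc.2 ⟨hk, hkd⟩)]
    simp [zigzag, T]
  rw [hZ, add_assoc, add_eq_zero_iff_eq_neg] at h0
  have hS : ‖∑ j ∈ (Finset.Icc 1 d).erase k, T j‖ ≤ (d - 1 : ℝ) * (ε ^ (A + 1) * N ^ d) := by
    refine (norm_sum_le _ _).trans ((Finset.sum_le_sum hTj).trans (le_of_eq ?_))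
    rw [Finset.sum_const, Finset.card_erase_of_mem (Finset.mem_Icc.2 ⟨hk, hkd⟩), Nat.card_Icc,
      nsmul_eq_mul, Nat.cast_sub (by omega)]
    simp
  have hfin : ‖T k‖ ≤ d * (ε ^ (A + 1) * N ^ d) := by
    rw [h0, norm_neg]
    refine (norm_add_le _ _).trans ?_
    linarith
  have hpos : 0 < ε ^ A * N ^ d := by positivity
  have h4 : (0 : ℝ) < 4 ^ d := by positivity
  have := hTk.trans hfin
  rw [div_le_iff₀ h4, pow_succ] at this
  nlinarith [mul_pos hpos (mul_pos hε h4)]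

/-- A form of positive degree has a nontrivial zero on every line. -/
lemma exists_zero_on_line {F : MvPolynomial (Fin 4) ℂ} {d : ℕ} (hd : 1 ≤ d)
    (hF : F.IsHomogeneous d) (i j : Fin 4) (hij : i ≠ j) :
    ∃ z ∈ cone F, ∀ k, k ≠ i → k ≠ j → z k = 0 := by
  by_cases h : ev F (ee j) = 0
  · refine ⟨ee j, ⟨?_, h⟩, fun k _ hk => by simp [ee, hk]⟩
    rw [← norm_ne_zero_iff, norm_ee]; exact one_ne_zero
  · obtain ⟨r, hr⟩ := exists_roots hF (ee i) h
    refine ⟨ee i + r ⟨0, hd⟩ • ee j, ⟨fun h0 => ?_, ?_⟩, fun k hk hk' => by simp [ee, hk, hk']⟩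
    · have := congrArg (fun z : E4 => z i) h0
      simp [ee, hij] at this
    · change ev F _ = 0
      rw [hr, Finset.prod_eq_zero (Finset.mem_univ ⟨0, hd⟩) (sub_self _), mul_zero]

lemma le_maxDiam {F : MvPolynomial (Fin 4) ℂ} {d : ℕ} (hF : IsSmoothSurface d F) {x y : E4}
    (hx : x ∈ cone F) (hy : y ∈ cone F) : intrinsicDist F x y ≤ maxDiam d :=
  le_iSup₂_of_le F hF (le_iSup₂_of_le x hx (le_iSup₂_of_le y hy le_rfl))

lemma lower_large {d : ℕ} (hd : 3 ≤ d) : ENNReal.ofReal (1 / 16 * d) ≤ maxDiam d := by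
  set ε : ℝ := 1 / ((d + 1) * 4 ^ d) with hεdef
  have hε : 0 < ε := by positivity
  have hεd : (d + 1) * ε * 4 ^ d ≤ 1 := by rw [hεdef]; field_simp; rfl
  have hε2 : ε ≤ 1 / 2 := by
    have h1 : (1 : ℝ) ≤ 4 ^ d := one_le_pow₀ (by norm_num)
    have h2 : (2 : ℝ) ≤ d + 1 := by
      have : (3 : ℝ) ≤ d := by exact_mod_cast hd
      linarith
    rw [hεdef]
    apply one_div_le_one_div_of_le (by norm_num)
    nlinarith
  obtain ⟨c, hc1, hc2⟩ := exists_good_param (zigzag ε d) d (η := ε ^ (d ^ 2 + 1) / 12)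
    (by positivity)
  have hF := smooth_pert hε hd hc2
  set F := pert (zigzag ε d) d c with hFdef
  obtain ⟨y, hy, hy0⟩ := exists_zero_on_line (by omega) hF.1 0 1 (by decide)
  have hy3 : coordSq (ee 3) y = 0 := by
    rw [coordSq_ee, hy0 3 (by decide) (by decide)]; simp
  have hx : ee 3 ∈ cone F := by
    refine ⟨by rw [← norm_ne_zero_iff, norm_ee]; exact one_ne_zero, ?_⟩
    rw [hFdef, eval_pert]
    have e1 : ∀ p, eval (fun i => ee 3 i) (pm d p) = 0 := by
      intro p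
      have a1 : d - 1 ≠ 0 := by omega
      have a2 : p.2.castSucc ≠ 3 := Fin.castSucc_ne_last p.2
      simp [pm, ee, a1, a2]
    have e2 : eval (fun i => ee 3 i) (zigzag ε d) = 0 := by
      simp only [zigzag, map_sum]
      refine Finset.sum_eq_zero fun k hk => ?_
      have a1 : k ≠ 0 := by have := (Finset.mem_Icc.1 hk).1; omega
      have a2 : xi k ≠ 3 := by
        intro h; have := congrArg Fin.val h; simp [xi] at this; omega
      simp [ee, a1, a2]
    simp [e1, e2]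
  have hanti : Antitone fun k : ℕ => ε ^ (4 * k) := fun a b hab =>
    pow_le_pow_of_le_one hε.le (by linarith) (by omega)
  have hl1 : ε ^ (4 * 1) ≤ 1 / 16 := by
    calc ε ^ (4 * 1) ≤ (1 / 2) ^ (4 * 1) := by gcongr
      _ = 1 / 16 := by norm_num
  have key := dist_ge_of_levels (F := F) (d := d) hanti (fun k => by positivity) hl1
    (fun k hk hkd z hz hl => level_estimate hε hεd hc1 hk hkd hz hl) hy3 ((d - 1) / 2)
  refine le_trans ?_ (le_maxDiam hF hx hy)
  refine le_trans ?_ (split_level (ee 3) (ε ^ (4 * 1)) (x := ee 3) (y := y) ?_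
    (by rw [hy3]; positivity))
  · refine le_iInf₂ fun w hw => le_trans ?_ (le_add_left (key 1 w le_rfl (by omega) hw.1 hw.2))
    apply ENNReal.ofReal_le_ofReal
    have h1 : d ≤ 6 * ((d - 1) / 2) := by omega
    have h2 : (d : ℝ) ≤ 6 * ((d - 1) / 2 : ℕ) := by exact_mod_cast h1
    linarith
  · rw [coordSq_ee, norm_ee]
    simp only [ee]
    simp
    linarith

lemma smooth_fermat {d : ℕ} (hd : 1 ≤ d) :
    IsSmoothSurface d (∑ i : Fin 4, X i ^ d : MvPolynomial (Fin 4) ℂ) := by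
  refine ⟨IsHomogeneous.sum _ _ _ fun i _ => isHomogeneous_X_pow i d, fun z hz => ?_⟩
  obtain ⟨j, hj⟩ : ∃ j, z j ≠ 0 := by
    by_contra h
    push Not at h
    exact hz.1 (by ext i; exact h i)
  refine ⟨j, ?_⟩
  rw [map_sum, map_sum, Finset.sum_eq_single j]
  · have : d ≠ 0 := by omega
    simp [hj, this]
  · intro i _ hi
    simp [pderiv_X_of_ne hi]
  · simp

lemma lower_small {d : ℕ} (hd : 1 ≤ d) : ENNReal.ofReal (1 / 4) ≤ maxDiam d := by
  have hF := smooth_fermat hd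
  obtain ⟨x, hx, hx0⟩ := exists_zero_on_line hd hF.1 0 1 (by decide)
  obtain ⟨y, hy, hy0⟩ := exists_zero_on_line hd hF.1 2 3 (by decide)
  refine le_trans ?_ (le_maxDiam hF hx hy)
  have s := sum_coordSq hx.1
  have a2 : coordSq (ee 2) x = 0 := by rw [coordSq_ee, hx0 2 (by decide) (by decide)]; simp
  have a3 : coordSq (ee 3) x = 0 := by rw [coordSq_ee, hx0 3 (by decide) (by decide)]; simp
  have b0 : coordSq (ee 0) y = 0 := by rw [coordSq_ee, hy0 0 (by decide) (by decide)]; simp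
  have b1 : coordSq (ee 1) y = 0 := by rw [coordSq_ee, hy0 1 (by decide) (by decide)]; simp
  rcases le_total (1 / 2) (coordSq (ee 0) x) with h | h
  · refine le_trans (ENNReal.ofReal_le_ofReal ?_) (coordSq_sub_le (norm_ee 0).le x y)
    have := le_abs_self (coordSq (ee 0) x - coordSq (ee 0) y)
    linarith
  · refine le_trans (ENNReal.ofReal_le_ofReal ?_) (coordSq_sub_le (norm_ee 1).le x y)
    have := le_abs_self (coordSq (ee 1) x - coordSq (ee 1) y)
    linarith

theorem lower_bound {d : ℕ} (hd : 1 ≤ d) : ENNReal.ofReal (1 / 16 * d) ≤ maxDiam d := by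
  rcases le_or_gt 3 d with h | h
  · exact lower_large h
  · refine le_trans (ENNReal.ofReal_le_ofReal ?_) (lower_small hd)
    have : (d : ℝ) ≤ 3 := by exact_mod_cast h.le
    linarith

end Pool.Agent.P.MP_a3b544_ag
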